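import Pool.Agent.Lib.MP_afd523_nt_T.Sec

/-!
MP_afd523_nt, project NVT: the criterion for non-vanishing in cosets of the characters modulo `d`.
-/

namespace Pool.Agent.NVT

open Finset Complex Pool.Agent.NV

variable {e : ℕ}

lemma val_neg_unit {d : ℕ} [NeZero d] (hd2 : 2 ≤ d) (b : (ZMod d)ˣ) :
    ((-b : (ZMod d)ˣ) : ZMod d).val = d - (b : ZMod d).val := by
  have : Fact (1 < d) := ⟨hd2⟩
  rw [Units.val_neg, ZMod.neg_val, if_neg b.ne_zero]

lemma val_one_unit {d : ℕ} (hd2 : 2 ≤ d) : (((1 : (ZMod d)ˣ)) : ZMod d).val = 1 := by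
  have : Fact (1 < d) := ⟨hd2⟩
  rw [Units.val_one, ZMod.val_one]

/-- classes inverse to `±a` have large representatives -/
lemma inv_rep {d : ℕ} [NeZero d] (hd2 : 2 ≤ d) (a : ℕ) (ha : 1 < a) (b : (ZMod d)ˣ)
    (h : (a : ZMod d) * b = 1 ∨ (a : ZMod d) * b = -1) : d ≤ a * (b : ZMod d).val + 1 := by
  have hb := rep_pos hd2 b
  set v := (b : ZMod d).val with hv
  have hvb : (v : ZMod d) = b := by rw [hv, ZMod.natCast_zmod_val]
  have hx : 2 ≤ a * v := by nlinarith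
  rcases h with h | h
  · have h1 : ((a * v - 1 : ℕ) : ZMod d) = 0 := by
      rw [Nat.cast_sub (by omega)]
      push_cast
      rw [hvb, h, sub_self]
    rw [ZMod.natCast_eq_zero_iff] at h1
    have := Nat.le_of_dvd (by omega) h1
    omega
  · have h1 : ((a * v + 1 : ℕ) : ZMod d) = 0 := by
      push_cast
      rw [hvb, h]
      ring
    rw [ZMod.natCast_eq_zero_iff] at h1
    exact Nat.le_of_dvd (by omega) h1

/-- the first moment is large for one of the twists -/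
theorem first_large : ∃ C : ℝ, 1 ≤ C ∧ ∀ (q d : ℕ) [NeZero q] [NeZero d] (e : ℕ), e ≤ 1 →
    d ^ 2 ∣ q → ∀ (ψ : DirichletCharacter ℂ q) (c₀ : (ZMod d)ˣ) (z : ℂ), ‖z‖ = 1 →
    ∀ (a : ℕ) (E : ℝ), 0 ≤ E → 1 < a → a.Coprime q → C * (a : ℝ) ^ 2 ≤ d → C * √a * E ≤ 1 →
    (∀ b : (ZMod d)ˣ, ‖Av e (√q) (FF ψ (b : ZMod d)) - (wV e (√q) (b : ZMod d).val : ℂ) *
      ψ ((b : ZMod d).val : ZMod q) / (√((b : ZMod d).val : ℝ) : ℂ)‖ ≤ E) →
    ∃ u : (ZMod d)ˣ, 1 / (4 * √a) ≤ ‖Av e (√q) (FF ψ (u : ZMod d)) +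
      Av e (√q) (FF ψ (-(u : ZMod d))) + z * (Av e (√q) (fun n => (starRingEnd ℂ)
          (FF ψ ((c₀ * u⁻¹ : (ZMod d)ˣ) : ZMod d) n)) +
          Av e (√q) (fun n => (starRingEnd ℂ)
          (FF ψ (-((c₀ * u⁻¹ : (ZMod d)ˣ) : ZMod d)) n)))‖ := by
  obtain ⟨K, hK0, hK⟩ := wV_low
  refine ⟨10 ^ 5 * (1 + K) ^ 2, by nlinarith, ?_⟩
  intro q d _ _ e he hd ψ c₀ z hz a E hE ha haq hCd hCE hmain
  have hKK : (1 : ℝ) ≤ (1 + K) ^ 2 := by nlinarith
  have ha1 : (1 : ℝ) < a := by exact_mod_cast ha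
  have ha2 : (2 : ℝ) ≤ a := by exact_mod_cast ha
  have haa : (4 : ℝ) ≤ (a : ℝ) ^ 2 := by nlinarith
  have hd5 : 10 ^ 5 * (a : ℝ) ^ 2 ≤ d := by nlinarith
  have hd4 : (4 * 10 ^ 5 : ℝ) ≤ d := by nlinarith
  have hd2 : 2 ≤ d := by
    have : (2 : ℝ) ≤ d := by linarith
    exact_mod_cast this
  have hd0 : (0 : ℝ) < d := by linarith
  have hq0 : (0 : ℝ) < q := by exact_mod_cast NeZero.pos q
  have hdq2 : (d : ℝ) ^ 2 ≤ q := by
    exact_mod_cast Nat.le_of_dvd (NeZero.pos q) hd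
  have hT : (d : ℝ) ≤ √(q : ℝ) := Real.le_sqrt_of_sq_le hdq2
  have hT0 : 0 < √(q : ℝ) := by linarith
  have hle := alpha_le he hd2 ψ
  -- weights of small arguments
  have hw : ∀ m : ℕ, 0 < m → (m : ℝ) ≤ a → (99 / 100 : ℝ) ≤ wV e (√q) m := by
    intro m hm hma
    have hm0 : (0 : ℝ) < m := by exact_mod_cast hm
    have h1 := hK e he (√q) m hT0 hm (by nlinarith)
    have h2 : (m : ℝ) / √(q : ℝ) ≤ 1 / (10 ^ 5 * (1 + K) ^ 2) := by
      rw [div_le_div_iff₀ hT0 (by positivity)]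
      have h5 : (m : ℝ) ≤ (a : ℝ) ^ 2 := by nlinarith
      calc (m : ℝ) * (10 ^ 5 * (1 + K) ^ 2) ≤ (a : ℝ) ^ 2 * (10 ^ 5 * (1 + K) ^ 2) :=
            mul_le_mul_of_nonneg_right h5 (by positivity)
        _ = 10 ^ 5 * (1 + K) ^ 2 * (a : ℝ) ^ 2 := by ring
        _ ≤ d := hCd
        _ ≤ 1 * √(q : ℝ) := by rw [one_mul]; exact hT
    have h3 : √((m : ℝ) / √(q : ℝ)) ≤ 1 / (100 * (1 + K)) := by
      rw [Real.sqrt_le_left (by positivity)]
      refine h2.trans ?_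
      rw [div_pow, one_pow, mul_pow]
      apply one_div_le_one_div_of_le (by positivity)
      nlinarith
    have h4 : K * √((m : ℝ) / √(q : ℝ)) ≤ 1 / 100 := by
      calc K * √((m : ℝ) / √(q : ℝ)) ≤ (1 + K) * (1 / (100 * (1 + K))) := by
            apply mul_le_mul (by linarith) h3 (Real.sqrt_nonneg _) (by positivity)
        _ = 1 / 100 := by field_simp
    linarith
  -- the error term
  have hsa : 1 ≤ √(a : ℝ) := Real.one_le_sqrt.2 ha1.le
  have hsa0 : 0 < √(a : ℝ) := by linarith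
  have hEa : √(a : ℝ) * E ≤ 1 / 10 ^ 5 := by
    rw [le_div_iff₀ (by positivity)]
    have : 0 ≤ √(a : ℝ) * E := by positivity
    nlinarith
  have hE1 : E ≤ 1 / 10 ^ 5 := by nlinarith
  have hconj : ∀ f : ℕ → ℂ, ‖Av e (√q) (fun n => (starRingEnd ℂ) (f n))‖ = ‖Av e (√q) f‖ := by
    intro f
    rw [Av_conj, RCLike.norm_conj]
  -- general lower bound
  have hgen : ∀ (u w : (ZMod d)ˣ), ‖Av e (√q) (FF ψ (u : ZMod d))‖ -
      ‖Av e (√q) (FF ψ ((-u : (ZMod d)ˣ) : ZMod d))‖ - ‖Av e (√q) (FF ψ (w : ZMod d))‖ -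
      ‖Av e (√q) (FF ψ ((-w : (ZMod d)ˣ) : ZMod d))‖ ≤
      ‖Av e (√q) (FF ψ (u : ZMod d)) +
      Av e (√q) (FF ψ (-(u : ZMod d))) + z * (Av e (√q) (fun n => (starRingEnd ℂ)
          (FF ψ (w : ZMod d) n)) +
          Av e (√q) (fun n => (starRingEnd ℂ)
          (FF ψ (-(w : ZMod d)) n)))‖ := by
    intro u w
    rw [Units.val_neg, Units.val_neg]
    set x1 := Av e (√q) (FF ψ (u : ZMod d))
    set x2 := Av e (√q) (FF ψ (-(u : ZMod d)))
    have h3 := hconj (FF ψ (w : ZMod d))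
    have h4 := hconj (FF ψ (-(w : ZMod d)))
    set x3 := Av e (√q) (fun n => (starRingEnd ℂ) (FF ψ (w : ZMod d) n))
    set x4 := Av e (√q) (fun n => (starRingEnd ℂ) (FF ψ (-(w : ZMod d)) n))
    rw [← h3, ← h4]
    have h5 : ‖x1‖ ≤ ‖x1 + x2 + z * (x3 + x4)‖ + ‖x2‖ + ‖z * (x3 + x4)‖ := by
      have h6 : x1 = (x1 + x2 + z * (x3 + x4)) + (-x2) + (-(z * (x3 + x4))) := by ring
      calc ‖x1‖ = ‖(x1 + x2 + z * (x3 + x4)) + (-x2) + (-(z * (x3 + x4)))‖ := by rw [← h6]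
        _ ≤ _ := by
          refine (norm_add₃_le).trans ?_
          rw [norm_neg, norm_neg]
    have h7 : ‖z * (x3 + x4)‖ ≤ ‖x3‖ + ‖x4‖ := by
      rw [norm_mul, hz, one_mul]
      exact norm_add_le _ _
    linarith
  -- bounds of single terms
  have hsmall : ∀ b : (ZMod d)ˣ, ∀ R : ℝ, 0 < R → R ≤ ((b : ZMod d).val : ℝ) →
      ‖Av e (√q) (FF ψ (b : ZMod d))‖ ≤ 1 / √R + E := by
    intro b R hR hRb
    refine (hle b E (hmain b)).trans ?_
    have h1 : √R ≤ √((b : ZMod d).val : ℝ) := Real.sqrt_le_sqrt hRb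
    have h2 : 0 < √R := Real.sqrt_pos.2 hR
    have h3 := one_div_le_one_div_of_le h2 h1
    linarith
  have hsqrt2 : 1 / √(2 : ℝ) ≤ 7072 / 10000 := by
    rw [div_le_div_iff₀ (Real.sqrt_pos.2 (by norm_num)) (by norm_num)]
    have h1 : (10000 / 7072 : ℝ) ≤ √2 := Real.le_sqrt_of_sq_le (by norm_num)
    linarith
  have hbig : ∀ R : ℝ, 10 ^ 5 ≤ R → 1 / √R ≤ 1 / 100 := by
    intro R hR
    apply one_div_le_one_div_of_le (by norm_num)
    apply Real.le_sqrt_of_sq_le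
    linarith
  by_cases hc : c₀ = 1 ∨ c₀ = -1
  · -- twist by `a`
    have hadq : a.Coprime d := haq.coprime_dvd_right (dvd_of_sq hd)
    set u : (ZMod d)ˣ := ZMod.unitOfCoprime a hadq with hu
    have had : a < d := by
      have : (a : ℝ) < d := by nlinarith
      exact_mod_cast this
    have huv : (u : ZMod d) = a := by rw [hu, ZMod.coe_unitOfCoprime]
    have huval : (u : ZMod d).val = a := by rw [huv, ZMod.val_natCast_of_lt had]
    refine ⟨u, ?_⟩
    refine le_trans ?_ (hgen u (c₀ * u⁻¹))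
    have h1 := alpha_ge ψ u (by
      rw [huval]
      exact (ZMod.isUnit_iff_coprime a q).2 haq) E (hmain u)
    rw [huval] at h1
    have h2 := hw a (by omega) le_rfl
    -- the class of `-a`
    have h3 : ‖Av e (√q) (FF ψ ((-u : (ZMod d)ˣ) : ZMod d))‖ ≤ 1 / √((d : ℝ) - a) + E := by
      apply hsmall (-u) ((d : ℝ) - a) (by nlinarith)
      rw [val_neg_unit hd2, huval, Nat.cast_sub had.le]
    -- the dual classes
    have h4 : ∀ w : (ZMod d)ˣ, ((a : ZMod d) * w = 1 ∨ (a : ZMod d) * w = -1) →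
        ‖Av e (√q) (FF ψ (w : ZMod d))‖ ≤ 1 / √(((d : ℝ) - 1) / a) + E := by
      intro w hwa
      have h5 := inv_rep hd2 a ha w hwa
      apply hsmall w (((d : ℝ) - 1) / a) (by
        apply div_pos (by linarith) (by linarith))
      rw [div_le_iff₀ (by linarith)]
      have h6 : (d : ℝ) ≤ a * ((w : ZMod d).val : ℝ) + 1 := by exact_mod_cast h5
      linarith
    have h5 : (a : ZMod d) * ((c₀ * u⁻¹ : (ZMod d)ˣ) : ZMod d) = c₀ := by
      rw [← huv, ← Units.val_mul, mul_comm, inv_mul_cancel_right]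
    have h6 := h4 (c₀ * u⁻¹) (by
      rw [h5]
      rcases hc with h | h
      · left; rw [h, Units.val_one]
      · right; rw [h, Units.val_neg, Units.val_one])
    have h7 := h4 (-(c₀ * u⁻¹)) (by
      rw [Units.val_neg, mul_neg, h5]
      rcases hc with h | h
      · right; rw [h, Units.val_one]
      · left; rw [h, Units.val_neg, Units.val_one, neg_neg])
    -- numerical bounds
    have h8 : 1 / √((d : ℝ) - a) ≤ 1 / 100 / √(a : ℝ) := by
      rw [div_div]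
      apply one_div_le_one_div_of_le (by positivity)
      apply Real.le_sqrt_of_sq_le
      rw [mul_pow, Real.sq_sqrt (by linarith)]
      nlinarith
    have h9 : 1 / √(((d : ℝ) - 1) / a) ≤ 1 / 100 / √(a : ℝ) := by
      rw [div_div]
      apply one_div_le_one_div_of_le (by positivity)
      apply Real.le_sqrt_of_sq_le
      rw [mul_pow, Real.sq_sqrt (by linarith), le_div_iff₀ (by linarith)]
      nlinarith
    have h10 : E ≤ 1 / 100 / √(a : ℝ) := by
      rw [le_div_iff₀ hsa0, mul_comm]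
      linarith
    have h11 : (99 / 100 : ℝ) / √(a : ℝ) ≤ wV e (√q) a / √(a : ℝ) := by gcongr
    have h12 : 1 / (4 * √(a : ℝ)) = 25 / 100 / √(a : ℝ) := by
      field_simp; norm_num
    have h13 : (99 / 100 : ℝ) / √(a : ℝ) = 99 * (1 / 100 / √(a : ℝ)) := by ring
    have h14 : (25 / 100 : ℝ) / √(a : ℝ) = 25 * (1 / 100 / √(a : ℝ)) := by ring
    have h15 : 0 < 1 / 100 / √(a : ℝ) := by positivity
    rw [h12, h14]
    rw [h13] at h11
    linarith
  · -- no twist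
    push Not at hc
    obtain ⟨hc1, hc2⟩ := hc
    refine ⟨1, ?_⟩
    refine le_trans ?_ (hgen 1 (c₀ * 1⁻¹))
    rw [inv_one, mul_one]
    have hv1 := val_one_unit hd2
    have h1 := alpha_ge ψ (1 : (ZMod d)ˣ) (by
      rw [hv1, Nat.cast_one]
      exact isUnit_one) E (hmain 1)
    rw [hv1] at h1
    have h2 := hw 1 one_pos (by push_cast; linarith)
    rw [Nat.cast_one, Real.sqrt_one, div_one] at h1
    have h3 : ‖Av e (√q) (FF ψ ((-1 : (ZMod d)ˣ) : ZMod d))‖ ≤ 1 / √((d : ℝ) - 1) + E := by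
      apply hsmall (-1) ((d : ℝ) - 1) (by linarith)
      rw [val_neg_unit hd2, hv1, Nat.cast_sub (by omega), Nat.cast_one]
    have h4 : 1 / √((d : ℝ) - 1) ≤ 1 / 100 := hbig _ (by linarith)
    -- the dual classes
    set r := (c₀ : ZMod d).val with hr
    have hr1 : 1 ≤ r := rep_pos hd2 c₀
    have hrd : r < d := rep_lt c₀
    have hne1 : r ≠ 1 := by
      intro h
      apply hc1
      apply Units.ext
      rw [Units.val_one, ← ZMod.natCast_zmod_val (c₀ : ZMod d), ← hr, h, Nat.cast_one]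
    have hne2 : r ≠ d - 1 := by
      intro h
      apply hc2
      apply Units.ext
      rw [Units.val_neg, Units.val_one, ← ZMod.natCast_zmod_val (c₀ : ZMod d), ← hr, h,
        Nat.cast_sub (by omega), ZMod.natCast_self, Nat.cast_one, zero_sub]
    have hvn := val_neg_unit hd2 c₀
    rw [← hr] at hvn
    have h5 : ‖Av e (√q) (FF ψ (c₀ : ZMod d))‖ +
        ‖Av e (√q) (FF ψ ((-c₀ : (ZMod d)ˣ) : ZMod d))‖ ≤ 7072 / 10000 + 1 / 100 + 2 * E := by
      rcases Nat.lt_or_ge (2 * r) d with h | h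
      · have h6 := hsmall c₀ 2 (by norm_num) (by
          rw [← hr]
          have : 2 ≤ r := by omega
          exact_mod_cast this)
        have h7 := hsmall (-c₀) ((d : ℝ) / 2) (by linarith) (by
          rw [hvn, Nat.cast_sub hrd.le]
          have : (2 : ℝ) * r < d := by exact_mod_cast h
          linarith)
        have h8 := hbig ((d : ℝ) / 2) (by linarith)
        linarith
      · have h6 := hsmall (-c₀) 2 (by norm_num) (by
          rw [hvn]
          have : 2 ≤ d - r := by omega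
          exact_mod_cast this)
        have h7 := hsmall c₀ ((d : ℝ) / 2) (by linarith) (by
          rw [← hr]
          have : (d : ℝ) ≤ 2 * r := by exact_mod_cast h
          linarith)
        have h8 := hbig ((d : ℝ) / 2) (by linarith)
        linarith
    have h6 : 1 / (4 * √(a : ℝ)) ≤ 1 / (4 * √2) := by
      apply one_div_le_one_div_of_le (by positivity)
      have := Real.sqrt_le_sqrt ha2
      linarith
    have h7 : 1 / (4 * √(2 : ℝ)) = 1 / √2 / 4 := by field_simp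
    linarith

/-- the criterion -/
theorem crit : ∃ c C : ℝ, 0 < c ∧ 0 < C ∧ ∀ (q d : ℕ) [NeZero q] [NeZero d] (hd : d ^ 2 ∣ q)
    (ψ : DirichletCharacter ℂ q), ψ.IsPrimitive → ∀ (a : ℕ) (D1 D2 : ℝ), 0 ≤ D1 → 0 ≤ D2 →
    1 < a → a.Coprime q → C * (a : ℝ) ^ 2 ≤ d →
    C * √a * (D1 * (1 + Real.log q) + D2 * (q : ℝ) ^ (1 / 4 : ℝ)) ≤ 1 →
    (∀ (b : (ZMod d)ˣ) (N : ℕ),
      ‖∑ n ∈ (Ioc d N).filter (fun n : ℕ => (n : ZMod d) = b), ψ (n : ZMod q)‖ ≤
        D1 * √N + D2 * N) →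
    c * (Nat.totient d : ℝ) ≤ a * (1 + Real.log d + d * (D1 * (1 + Real.log q) +
      D2 * (q : ℝ) ^ (1 / 4 : ℝ)) ^ 2) * (cnt (dvd_of_sq hd) ψ : ℝ) := by
  obtain ⟨C, hC1, hC⟩ := first_large
  have hC0 : 0 < C := by linarith
  have hm0 := m1_nonneg (e := 0) (by norm_num)
  have hm1 := m1_nonneg (e := 1) (by norm_num)
  set K : ℝ := 1 + m1 0 + m1 1 with hK
  have hK1 : 1 ≤ K := by rw [hK]; linarith
  refine ⟨1 / (1024 * K ^ 2), C * K, by positivity, by positivity, ?_⟩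
  intro q d _ _ hd ψ hψ a D1 D2 hD1 hD2 ha haq hCd hCE hcl
  have hq1 : (1 : ℝ) ≤ q := by exact_mod_cast NeZero.pos q
  have hl : 0 ≤ Real.log q := Real.log_nonneg hq1
  set E' : ℝ := D1 * (1 + Real.log q) + D2 * (q : ℝ) ^ (1 / 4 : ℝ) with hE'
  have hE'0 : 0 ≤ E' := by positivity
  -- parity
  obtain ⟨e, he, hpar⟩ : ∃ e : ℕ, e ≤ 1 ∧ ψ (-1) = (-1) ^ e := by
    have h : ψ (-1) * ψ (-1) = 1 := by
      rw [← map_mul]; simp
    rcases mul_self_eq_one_iff.1 h with h | h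
    · exact ⟨0, by norm_num, by simpa using h⟩
    · exact ⟨1, le_refl _, by simpa using h⟩
  have hme : 1 + m1 e ≤ K := by
    rw [hK]
    interval_cases e <;> linarith
  have ha2 : (2 : ℝ) ≤ a := by exact_mod_cast ha
  have hCd' : C * (a : ℝ) ^ 2 ≤ d := by
    refine le_trans ?_ hCd
    have : 0 ≤ C * (a : ℝ) ^ 2 := by positivity
    nlinarith
  have hd0 : 0 < d := NeZero.pos d
  have hd0' : (0 : ℝ) < d := by exact_mod_cast hd0
  have hsa : 1 ≤ √(a : ℝ) := Real.one_le_sqrt.2 (by linarith)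
  have hKE : C * √(a : ℝ) * (K * E') ≤ 1 := by
    calc C * √(a : ℝ) * (K * E') = C * K * √(a : ℝ) * E' := by ring
      _ ≤ 1 := hCE
  obtain ⟨c₀, hc₀⟩ := KK_class hd ψ hψ
  -- first the case `d = 1`
  rcases Nat.lt_or_ge 1 d with hd2 | hd1
  swap
  · exfalso
    have h1 : (d : ℝ) ≤ 1 := by exact_mod_cast hd1
    nlinarith
  have hq : 1 < q := lt_of_lt_of_le hd2 (Nat.le_of_dvd (NeZero.pos q) (dvd_of_sq hd))
  have hq0 : (0 : ℝ) < q := by linarith
  have hsq : 0 < √(q : ℝ) := Real.sqrt_pos.2 hq0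
  have hmain : ∀ b : (ZMod d)ˣ, ‖Av e (√q) (FF ψ (b : ZMod d)) -
      (wV e (√q) (b : ZMod d).val : ℂ) *
      ψ ((b : ZMod d).val : ZMod q) / (√((b : ZMod d).val : ℝ) : ℂ)‖ ≤ K * E' := by
    intro b
    refine (alpha_main he hd2 ψ b D1 D2 hD1 hD2 (hcl b)).trans ?_
    exact mul_le_mul_of_nonneg_right hme hE'0
  obtain ⟨u, hu⟩ := hC q d e he hd ψ c₀ (rn ψ e) (norm_rn ψ hψ e) a (K * E') (by positivity) ha
    haq hCd' hKE hmain
  have hmom := mom hq hd ψ hψ he hpar c₀ hc₀ u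
  have hcs := cnt_cs (dvd_of_sq hd) ψ ((u⁻¹ : (ZMod d)ˣ) : ZMod d)
  rw [hmom] at hcs
  have hsec := sec hq hd ψ hψ he hpar
  have hcs2 := class_sum hd2 (fun b : (ZMod d)ˣ => Av e (√q) (FF ψ (b : ZMod d))) (K * E')
    (fun b => alpha_le he hd2 ψ b _ (hmain b))
  set φ : ℝ := (Nat.totient d : ℝ) with hφ
  have hφ0 : 0 < φ := by
    rw [hφ]
    exact_mod_cast Nat.totient_pos.2 hd0
  set S := Av e (√q) (FF ψ (u : ZMod d)) +
      Av e (√q) (FF ψ (-(u : ZMod d))) + rn ψ e * (Av e (√q) (fun n => (starRingEnd ℂ)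
          (FF ψ ((c₀ * u⁻¹ : (ZMod d)ˣ) : ZMod d) n)) +
          Av e (√q) (fun n => (starRingEnd ℂ)
          (FF ψ (-((c₀ * u⁻¹ : (ZMod d)ˣ) : ZMod d)) n))) with hS
  set N : ℝ := (cnt (dvd_of_sq hd) ψ : ℝ) with hN
  have hN0 : 0 ≤ N := by rw [hN]; positivity
  have h1 : ‖(Nat.totient d : ℂ) * S‖ = φ * ‖S‖ := by
    rw [norm_mul, Complex.norm_natCast]
  rw [h1] at hcs
  -- collect
  have hl2 : 0 ≤ Real.log d := Real.log_natCast_nonneg d
  set W : ℝ := 1 + Real.log d + d * E' ^ 2 with hW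
  have hW0 : 0 < W := by positivity
  have h2 : 2 * (1 + Real.log d) + 2 * d * (K * E') ^ 2 ≤ 2 * K ^ 2 * W := by
    rw [hW]
    have hKK : 1 ≤ K ^ 2 := by nlinarith
    have : (1 + Real.log d) ≤ K ^ 2 * (1 + Real.log d) := by nlinarith
    nlinarith
  have h3 : φ ^ 2 * ‖S‖ ^ 2 ≤ N * (16 * (φ * (2 * K ^ 2 * W))) := by
    calc φ ^ 2 * ‖S‖ ^ 2 = (φ * ‖S‖) ^ 2 := by ring
      _ ≤ _ := hcs
      _ ≤ N * (16 * (φ * (2 * K ^ 2 * W))) := by
        apply mul_le_mul_of_nonneg_left _ hN0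
        refine hsec.trans ?_
        apply mul_le_mul_of_nonneg_left _ (by norm_num)
        exact mul_le_mul_of_nonneg_left (hcs2.trans h2) hφ0.le
  have h4 : 1 / (16 * (a : ℝ)) ≤ ‖S‖ ^ 2 := by
    have h5 : (1 / (4 * √(a : ℝ))) ^ 2 = 1 / (16 * (a : ℝ)) := by
      rw [div_pow, mul_pow, Real.sq_sqrt (by linarith)]
      norm_num
    rw [← h5]
    exact pow_le_pow_left₀ (by positivity) hu 2
  have h6 : φ ^ 2 * (1 / (16 * (a : ℝ))) ≤ N * (16 * (φ * (2 * K ^ 2 * W))) :=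
    (mul_le_mul_of_nonneg_left h4 (by positivity)).trans h3
  have h7 : φ ≤ 512 * K ^ 2 * a * W * N := by
    have ha0 : (0 : ℝ) < a := by linarith
    rw [mul_one_div, div_le_iff₀ (by positivity)] at h6
    have h8 : φ * φ ≤ φ * (512 * K ^ 2 * a * W * N) := by
      calc φ * φ = φ ^ 2 := by ring
        _ ≤ _ := h6
        _ = φ * (512 * K ^ 2 * a * W * N) := by ring
    exact le_of_mul_le_mul_left h8 hφ0
  rw [div_mul_eq_mul_div, one_mul, div_le_iff₀ (by positivity)]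
  have h9 : 0 ≤ K ^ 2 * a * W * N := by positivity
  calc φ ≤ 512 * K ^ 2 * a * W * N := h7
    _ ≤ a * W * N * (1024 * K ^ 2) := by nlinarith

end Pool.Agent.NVT
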