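import Pool.Agent.Lib.MP_afd523_nt_T.Alp

/-!
MP_afd523_nt, project NVT: the second moment over the characters modulo `d` and the
Cauchy-Schwarz inequality.
-/

namespace Pool.Agent.NVT

open Finset Complex Pool.Agent.NV

variable {e : ℕ}

lemma conj_char {d : ℕ} [NeZero d] (χ : DirichletCharacter ℂ d) (b : (ZMod d)ˣ) :
    (starRingEnd ℂ) (χ (b : ZMod d)) = χ ((b⁻¹ : (ZMod d)ˣ) : ZMod d) := by
  have h1 : (starRingEnd ℂ) (χ (b : ZMod d)) = χ⁻¹ (b : ZMod d) := by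
    rw [← MulChar.star_eq_inv, MulChar.star_apply]
    rfl
  rw [h1, MulChar.inv_apply, Ring.inverse_unit]

lemma parseval {d : ℕ} [NeZero d] (α : (ZMod d)ˣ → ℂ) :
    ∑ χ : DirichletCharacter ℂ d, ‖∑ b : (ZMod d)ˣ, χ (b : ZMod d) * α b‖ ^ 2 =
      (Nat.totient d : ℝ) * ∑ b : (ZMod d)ˣ, ‖α b‖ ^ 2 := by
  classical
  have key : ∀ z : ℂ, ((‖z‖ ^ 2 : ℝ) : ℂ) = z * (starRingEnd ℂ) z := by
    intro z
    rw [Complex.mul_conj, Complex.normSq_eq_norm_sq]
  apply Complex.ofReal_injective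
  push_cast
  have key' : ∀ z : ℂ, ((‖z‖ : ℝ) : ℂ) ^ 2 = z * (starRingEnd ℂ) z := by
    intro z
    rw [← key z]; push_cast; rfl
  have h1 : ∀ χ : DirichletCharacter ℂ d,
      ((‖∑ b : (ZMod d)ˣ, χ (b : ZMod d) * α b‖ : ℝ) : ℂ) ^ 2 =
      ∑ b : (ZMod d)ˣ, ∑ b' : (ZMod d)ˣ, (α b * (starRingEnd ℂ) (α b')) *
        (χ ((b' : ZMod d)⁻¹) * χ (b : ZMod d)) := by
    intro χ
    rw [key', map_sum, Finset.sum_mul_sum]
    refine Finset.sum_congr rfl fun b _ => Finset.sum_congr rfl fun b' _ => ?_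
    rw [map_mul, conj_char, ZMod.inv_coe_unit]
    ring
  rw [Finset.sum_congr rfl fun χ _ => h1 χ, Finset.sum_comm, Finset.mul_sum]
  refine Finset.sum_congr rfl fun b _ => ?_
  rw [Finset.sum_comm]
  have h2 : ∀ b' : (ZMod d)ˣ, ∑ χ : DirichletCharacter ℂ d, (α b * (starRingEnd ℂ) (α b')) *
        (χ ((b' : ZMod d)⁻¹) * χ (b : ZMod d)) =
      if b' = b then (Nat.totient d : ℂ) * (α b * (starRingEnd ℂ) (α b)) else 0 := by
    intro b'
    rw [← Finset.mul_sum, DirichletCharacter.sum_char_inv_mul_char_eq (R := ℂ) b'.isUnit]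
    by_cases h : b' = b
    · rw [if_pos h, h, if_pos rfl]; ring
    · rw [if_neg h, if_neg (fun h3 => h (Units.ext h3)), mul_zero]
  rw [Finset.sum_congr rfl fun b' _ => h2 b', Finset.sum_ite_eq' Finset.univ b, key']
  simp

lemma A_expand (he : e ≤ 1) {T : ℝ} (hT : 0 < T) {q d : ℕ} [NeZero q] [NeZero d] (hd : d ∣ q)
    (ψ : DirichletCharacter ℂ q) (χ : DirichletCharacter ℂ d) :
    Av e T (fun n => ψ n * χ n) = ∑ b : (ZMod d)ˣ, χ (b : ZMod d) * Av e T (FF ψ (b : ZMod d)) := by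
  classical
  rw [Av_lin he hT Finset.univ (fun b : (ZMod d)ˣ => χ (b : ZMod d))
    (fun (b : (ZMod d)ˣ) => FF ψ (b : ZMod d)) (fun b n => FF_norm ψ _ n)]
  congr 1
  funext n
  by_cases hn : IsUnit (n : ZMod d)
  · obtain ⟨v, hv⟩ := hn
    rw [Finset.sum_eq_single v]
    · rw [FF, if_pos hv.symm, hv, mul_comm]
    · intro b _ hb
      rw [FF, if_neg, mul_zero]
      intro h
      apply hb
      apply Units.ext
      rw [← h, hv]
    · intro h
      exact absurd (Finset.mem_univ _) h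
  · have hψn : ψ (n : ZMod q) = 0 := by
      apply ψ.map_nonunit
      intro hu
      apply hn
      have := hu.map (ZMod.castHom hd (ZMod d))
      rwa [map_natCast (ZMod.castHom hd (ZMod d)) n] at this
    simp [FF, hψn]

/-- the second moment over the even characters -/
lemma sec {q d : ℕ} [NeZero q] [NeZero d] (hq : 1 < q) (hd : d ^ 2 ∣ q)
    (ψ : DirichletCharacter ℂ q) (hψ : ψ.IsPrimitive) (he : e ≤ 1) (hpar : ψ (-1) = (-1) ^ e) :
    ∑ χ : DirichletCharacter ℂ d, ‖(1 + χ (-1)) * DirichletCharacter.LFunction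
      (ψ * DirichletCharacter.changeLevel (dvd_of_sq hd) χ) (1 / 2)‖ ^ 2 ≤
      16 * ((Nat.totient d : ℝ) * ∑ b : (ZMod d)ˣ, ‖Av e (√q) (FF ψ (b : ZMod d))‖ ^ 2) := by
  have hq0 : (0 : ℝ) < q := by exact_mod_cast NeZero.pos q
  have hsq : 0 < √(q : ℝ) := Real.sqrt_pos.2 hq0
  rw [← parseval, Finset.mul_sum]
  refine Finset.sum_le_sum fun χ _ => ?_
  rw [← A_expand he hsq (dvd_of_sq hd) ψ χ]
  have h : χ (-1) * χ (-1) = 1 := by
    rw [← map_mul]; simp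
  rcases mul_self_eq_one_iff.1 h with h | h
  · rw [L_eq hq hd ψ hψ he hpar χ h, Av_conj, h]
    set A := Av e (√q) (fun n => ψ (n : ZMod q) * χ (n : ZMod d))
    have h1 : ‖A + rn (ψ * DirichletCharacter.changeLevel (dvd_of_sq hd) χ) e *
        (starRingEnd ℂ) A‖ ≤ 2 * ‖A‖ := by
      refine (norm_add_le _ _).trans ?_
      rw [norm_mul, norm_rn _ (coset_primitive hd ψ hψ χ), RCLike.norm_conj]
      linarith
    rw [norm_mul]
    have h2 : ‖(1 + 1 : ℂ)‖ = 2 := by norm_num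
    rw [h2]
    have h3 := norm_nonneg (A + rn (ψ * DirichletCharacter.changeLevel (dvd_of_sq hd) χ) e *
        (starRingEnd ℂ) A)
    have h4 := norm_nonneg A
    nlinarith
  · rw [h]
    simp only [add_neg_cancel, zero_mul, norm_zero]
    have h0 : (0 : ℝ) ^ 2 = 0 := by norm_num
    rw [h0]
    positivity

/-- the number of even `χ' mod d` with `L(1/2, ψ χ') ≠ 0` -/
noncomputable def cnt {q d : ℕ} [NeZero q] (hd : d ∣ q) (ψ : DirichletCharacter ℂ q) : ℕ :=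
  Nat.card {χ : DirichletCharacter ℂ d // χ (-1) = 1 ∧
    DirichletCharacter.LFunction (ψ * DirichletCharacter.changeLevel hd χ) (1 / 2) ≠ 0}

lemma cnt_cs {q d : ℕ} [NeZero q] [NeZero d] (hd : d ∣ q) (ψ : DirichletCharacter ℂ q)
    (u : ZMod d) :
    ‖∑ χ : DirichletCharacter ℂ d, (1 + χ (-1)) * χ u *
      DirichletCharacter.LFunction (ψ * DirichletCharacter.changeLevel hd χ) (1 / 2)‖ ^ 2 ≤
    (cnt hd ψ : ℝ) * ∑ χ : DirichletCharacter ℂ d, ‖(1 + χ (-1)) * DirichletCharacter.LFunction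
      (ψ * DirichletCharacter.changeLevel hd χ) (1 / 2)‖ ^ 2 := by
  classical
  set L : DirichletCharacter ℂ d → ℂ := fun χ => DirichletCharacter.LFunction
    (ψ * DirichletCharacter.changeLevel hd χ) (1 / 2) with hL
  set S := (Finset.univ : Finset (DirichletCharacter ℂ d)).filter
    (fun χ => χ (-1) = 1 ∧ L χ ≠ 0) with hS
  have hc : cnt hd ψ = S.card := by
    rw [cnt, Nat.card_eq_fintype_card, Fintype.card_subtype]
  have h1 : ∑ χ : DirichletCharacter ℂ d, (1 + χ (-1)) * χ u * L χ =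
      ∑ χ ∈ S, (1 + χ (-1)) * χ u * L χ := by
    rw [hS, Finset.sum_filter]
    refine Finset.sum_congr rfl fun χ _ => ?_
    by_cases h : L χ = 0
    · rw [if_neg (fun h' => h'.2 h), h, mul_zero]
    · by_cases h0 : χ (-1) = 1
      · rw [if_pos ⟨h0, h⟩]
      · have hm : χ (-1) * χ (-1) = 1 := by
          rw [← map_mul]; simp
        rcases mul_self_eq_one_iff.1 hm with h3 | h3
        · exact absurd h3 h0
        · rw [if_neg (fun h' => h0 h'.1), h3]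
          ring
  have h2 : ‖∑ χ ∈ S, (1 + χ (-1)) * χ u * L χ‖ ≤ ∑ χ ∈ S, ‖(1 + χ (-1)) * L χ‖ := by
    refine (norm_sum_le _ _).trans (Finset.sum_le_sum fun χ _ => ?_)
    rw [norm_mul, norm_mul, norm_mul]
    have h3 := χ.norm_le_one u
    have h4 := norm_nonneg (1 + χ (-1))
    have h5 := norm_nonneg (L χ)
    nlinarith [mul_nonneg h4 h5, norm_nonneg (χ u)]
  show ‖∑ χ : DirichletCharacter ℂ d, (1 + χ (-1)) * χ u * L χ‖ ^ 2 ≤
    (cnt hd ψ : ℝ) * ∑ χ : DirichletCharacter ℂ d, ‖(1 + χ (-1)) * L χ‖ ^ 2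
  rw [h1, hc]
  calc ‖∑ χ ∈ S, (1 + χ (-1)) * χ u * L χ‖ ^ 2 ≤ (∑ χ ∈ S, ‖(1 + χ (-1)) * L χ‖) ^ 2 :=
        pow_le_pow_left₀ (norm_nonneg _) h2 2
    _ ≤ (S.card : ℝ) * ∑ χ ∈ S, ‖(1 + χ (-1)) * L χ‖ ^ 2 := sq_sum_le_card_mul_sum_sq
    _ ≤ (S.card : ℝ) * ∑ χ : DirichletCharacter ℂ d, ‖(1 + χ (-1)) * L χ‖ ^ 2 := by
        apply mul_le_mul_of_nonneg_left _ (by positivity)
        exact Finset.sum_le_sum_of_subset_of_nonneg (Finset.subset_univ _)
          fun _ _ _ => by positivity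

/-- the sum over the classes -/
lemma class_sum {d : ℕ} [NeZero d] (hd2 : 2 ≤ d) (α : (ZMod d)ˣ → ℂ) (E : ℝ)
    (h : ∀ b : (ZMod d)ˣ, ‖α b‖ ≤ 1 / √((b : ZMod d).val : ℝ) + E) :
    ∑ b : (ZMod d)ˣ, ‖α b‖ ^ 2 ≤ 2 * (1 + Real.log d) + 2 * d * E ^ 2 := by
  classical
  have h1 : ∀ b : (ZMod d)ˣ, ‖α b‖ ^ 2 ≤ (fun n : ℕ => 2 * (1 / (n : ℝ)) + 2 * E ^ 2)
      (b : ZMod d).val := by
    intro b
    have hb : (0 : ℝ) < ((b : ZMod d).val : ℝ) := by exact_mod_cast rep_pos hd2 b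
    have h2 := h b
    have h3 : (1 / √((b : ZMod d).val : ℝ)) ^ 2 = 1 / ((b : ZMod d).val : ℝ) := by
      rw [div_pow, one_pow, Real.sq_sqrt hb.le]
    have h4 : 0 ≤ 1 / √((b : ZMod d).val : ℝ) := by positivity
    have h5 := norm_nonneg (α b)
    calc ‖α b‖ ^ 2 ≤ (1 / √((b : ZMod d).val : ℝ) + E) ^ 2 := pow_le_pow_left₀ h5 h2 2
      _ ≤ 2 * (1 / √((b : ZMod d).val : ℝ)) ^ 2 + 2 * E ^ 2 := by
        nlinarith [sq_nonneg (1 / √((b : ZMod d).val : ℝ) - E)]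
      _ = _ := by rw [h3]
  refine (Finset.sum_le_sum fun b _ => h1 b).trans ?_
  have hinj : Function.Injective (fun b : (ZMod d)ˣ => (b : ZMod d).val) := by
    intro b b' hbb
    exact Units.ext (ZMod.val_injective d hbb)
  rw [← Finset.sum_image (s := (Finset.univ : Finset (ZMod d)ˣ))
    (g := fun b : (ZMod d)ˣ => (b : ZMod d).val)
    (f := fun n : ℕ => 2 * (1 / (n : ℝ)) + 2 * E ^ 2) (fun x _ y _ hxy => hinj hxy)]
  have hsub : (Finset.univ : Finset (ZMod d)ˣ).image (fun b : (ZMod d)ˣ => (b : ZMod d).val) ⊆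
      Icc 1 d := by
    intro n hn
    rw [Finset.mem_image] at hn
    obtain ⟨b, _, rfl⟩ := hn
    rw [Finset.mem_Icc]
    exact ⟨rep_pos hd2 b, (rep_lt b).le⟩
  refine (Finset.sum_le_sum_of_subset_of_nonneg hsub fun n _ _ => by positivity).trans ?_
  rw [Finset.sum_add_distrib, ← Finset.mul_sum, Finset.sum_const, Nat.card_Icc, nsmul_eq_mul]
  have h6 := sum_inv_le d
  have h7 : ((d + 1 - 1 : ℕ) : ℝ) = d := by simp
  rw [h7]
  nlinarith

end Pool.Agent.NVT
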