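import Pool.Agent.Lib.MP_afd523_nt_T.Crit

/-!
MP_afd523_nt, project NVT: non-vanishing in cosets of size `q^(1/4)`, `d² ∣ q`.
-/

namespace Pool.Agent.NVT

open Finset Complex Pool.Agent.NV

lemma class_card {d : ℕ} [NeZero d] (b : ZMod d) (N : ℕ) :
    ((Ioc d N).filter (fun n : ℕ => (n : ZMod d) = b)).card ≤ N / d := by
  classical
  have hd : 0 < d := NeZero.pos d
  have h1 : ((Ioc d N).filter (fun n : ℕ => (n : ZMod d) = b)).card ≤ (Icc 1 (N / d)).card := by
    apply Finset.card_le_card_of_injOn (fun n => n / d)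
    · intro n hn
      have hn' := Finset.mem_filter.1 (Finset.mem_coe.1 hn)
      have h2 := Finset.mem_Ioc.1 hn'.1
      rw [Finset.coe_Icc, Set.mem_Icc]
      exact ⟨(Nat.one_le_div_iff hd).2 h2.1.le, Nat.div_le_div_right h2.2⟩
    · intro n hn m hm hnm
      have hn' := Finset.mem_filter.1 (Finset.mem_coe.1 hn)
      have hm' := Finset.mem_filter.1 (Finset.mem_coe.1 hm)
      have h3 : (n : ZMod d) = (m : ZMod d) := by rw [hn'.2, hm'.2]
      have h4 : n % d = m % d := (ZMod.natCast_eq_natCast_iff' n m d).1 h3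
      have h5 := Nat.div_add_mod n d
      have h6 := Nat.div_add_mod m d
      simp only at hnm
      rw [hnm, h4] at h5
      omega
  simpa using h1

lemma class_trivial {q d : ℕ} [NeZero q] [NeZero d] (ψ : DirichletCharacter ℂ q) (b : ZMod d)
    (N : ℕ) : ‖∑ n ∈ (Ioc d N).filter (fun n : ℕ => (n : ZMod d) = b), ψ (n : ZMod q)‖ ≤
      N / d := by
  have hd : (0 : ℝ) < d := by exact_mod_cast NeZero.pos d
  refine (norm_sum_le _ _).trans ?_
  refine (Finset.sum_le_card_nsmul _ _ 1 fun n _ => ψ.norm_le_one _).trans ?_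
  rw [nsmul_eq_mul, mul_one]
  calc ((((Ioc d N).filter (fun n : ℕ => (n : ZMod d) = b)).card : ℕ) : ℝ) ≤ ((N / d : ℕ) : ℝ) := by
        exact_mod_cast class_card b N
    _ ≤ N / d := Nat.cast_div_le

/-- an odd character modulo `d > 2` -/
lemma exists_odd {d : ℕ} [NeZero d] (hd : 2 < d) : ∃ χ : DirichletCharacter ℂ d, χ (-1) = -1 := by
  have hne : (-1 : ZMod d) ≠ 1 := by
    have : Fact (2 < d) := ⟨hd⟩
    exact ZMod.neg_one_ne_one
  obtain ⟨χ, hχ⟩ := DirichletCharacter.exists_apply_ne_one_of_hasEnoughRootsOfUnity ℂ hne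
  have hm : χ (-1) * χ (-1) = 1 := by
    rw [← map_mul]; simp
  rcases mul_self_eq_one_iff.1 hm with h | h
  · exact absurd h hχ
  · exact ⟨χ, h⟩

/-- the count of the odd characters in a coset -/
lemma cnt_odd {q d : ℕ} [NeZero q] [NeZero d] (hd : d ∣ q) (ψ : DirichletCharacter ℂ q)
    (ξ : DirichletCharacter ℂ d) (hξ : ξ (-1) = -1) :
    cnt hd (ψ * DirichletCharacter.changeLevel hd ξ) =
      Nat.card {χ : DirichletCharacter ℂ d // χ (-1) = -1 ∧ DirichletCharacter.LFunction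
        (ψ * DirichletCharacter.changeLevel hd χ) (1 / 2) ≠ 0} := by
  unfold cnt
  refine Nat.card_congr ((Equiv.mulLeft ξ).subtypeEquiv fun χ => ?_)
  rw [Equiv.coe_mulLeft, MulChar.mul_apply, hξ, map_mul, mul_assoc]
  refine and_congr ?_ Iff.rfl
  constructor
  · intro h; rw [h, mul_one]
  · intro h
    have := congrArg (fun z => -z) h
    simpa using this

theorem thin_cosets : ∃ c C : ℝ, 0 < c ∧ 0 < C ∧ ∀ (q d : ℕ) [NeZero q] [NeZero d] (hd : d ∣ q),
    d ^ 2 ∣ q → ∀ a : ℕ, 1 < a → a.Coprime q → C * (a : ℝ) ^ 2 ≤ d →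
    C * √(a : ℝ) * (q : ℝ) ^ (1 / 4 : ℝ) ≤ d →
    ∀ ψ : DirichletCharacter ℂ q, ψ.IsPrimitive → ∀ s : ℂ, s = 1 ∨ s = -1 →
      c * (Nat.totient d : ℝ) / (a * (Real.log d + √(q : ℝ) / d)) ≤
        Nat.card {χ : DirichletCharacter ℂ d // χ (-1) = s ∧ DirichletCharacter.LFunction
          (ψ * DirichletCharacter.changeLevel hd χ) (1 / 2) ≠ 0} := by
  obtain ⟨c, C, hc, hC, h⟩ := crit
  refine ⟨c / 2, C + 1, by positivity, by positivity, ?_⟩
  intro q d _ _ hdq hd a ha haq hCd1 hCq1 ψ hψ s hs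
  have hd0 : (0 : ℝ) < d := by exact_mod_cast NeZero.pos d
  have hq0 : (0 : ℝ) < q := by exact_mod_cast NeZero.pos q
  have ha0 : (0 : ℝ) < a := by
    have : 0 < a := by omega
    exact_mod_cast this
  have ha2 : (2 : ℝ) ≤ a := by exact_mod_cast ha
  have hCd : C * (a : ℝ) ^ 2 ≤ d := by
    have : 0 ≤ (a : ℝ) ^ 2 := by positivity
    nlinarith
  have hCq : C * √(a : ℝ) * (q : ℝ) ^ (1 / 4 : ℝ) ≤ d := by
    refine le_trans ?_ hCq1
    have : 0 ≤ √(a : ℝ) * (q : ℝ) ^ (1 / 4 : ℝ) := by positivity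
    nlinarith
  have hd2 : 2 < d := by
    have : (4 : ℝ) ≤ d := by nlinarith
    have : 4 ≤ d := by exact_mod_cast this
    omega
  have hcoef : C * √(a : ℝ) * (0 * (1 + Real.log q) + 1 / (d : ℝ) * (q : ℝ) ^ (1 / 4 : ℝ)) ≤ 1 := by
    rw [zero_mul, zero_add]
    calc C * √(a : ℝ) * (1 / (d : ℝ) * (q : ℝ) ^ (1 / 4 : ℝ)) =
        C * √(a : ℝ) * (q : ℝ) ^ (1 / 4 : ℝ) / d := by ring
      _ ≤ 1 := by rw [div_le_one hd0]; exact hCq
  -- the bound for the even characters of any coset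
  have key : ∀ ψ' : DirichletCharacter ℂ q, ψ'.IsPrimitive →
      c / 2 * (Nat.totient d : ℝ) / (a * (Real.log d + √(q : ℝ) / d)) ≤ (cnt hdq ψ' : ℝ) := by
    intro ψ' hψ'
    have h1 := h q d hd ψ' hψ' a 0 (1 / d) le_rfl (by positivity) ha haq hCd hcoef
      (fun b N => by
        have := class_trivial ψ' (b : ZMod d) N
        calc _ ≤ (N : ℝ) / d := this
          _ = 0 * √(N : ℝ) + 1 / d * N := by ring)
    have h2 : (d : ℝ) * (0 * (1 + Real.log q) + 1 / (d : ℝ) * (q : ℝ) ^ (1 / 4 : ℝ)) ^ 2 =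
        √(q : ℝ) / d := by
      have h3 : ((q : ℝ) ^ (1 / 4 : ℝ)) ^ 2 = √(q : ℝ) := by
        rw [← Real.rpow_natCast, ← Real.rpow_mul hq0.le, Real.sqrt_eq_rpow]
        norm_num
      rw [zero_mul, zero_add, mul_pow, h3]
      field_simp
    rw [h2] at h1
    have hl : 0 ≤ Real.log d := Real.log_natCast_nonneg d
    have h4 : 1 ≤ √(q : ℝ) / d := by
      rw [le_div_iff₀ hd0, one_mul]
      apply Real.le_sqrt_of_sq_le
      exact_mod_cast Nat.le_of_dvd (NeZero.pos q) hd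
    have h5 : 0 < (a : ℝ) * (Real.log d + √(q : ℝ) / d) := by positivity
    rw [div_le_iff₀ h5]
    have h6 : (cnt (dvd_of_sq hd) ψ' : ℝ) = cnt hdq ψ' := rfl
    rw [h6] at h1
    set N : ℝ := (cnt hdq ψ' : ℝ)
    have hN : 0 ≤ N := by positivity
    have h7 : (a : ℝ) * (1 + Real.log d + √(q : ℝ) / d) * N ≤
        a * (2 * (Real.log d + √(q : ℝ) / d)) * N := by
      apply mul_le_mul_of_nonneg_right _ hN
      apply mul_le_mul_of_nonneg_left _ ha0.le
      linarith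
    linarith
  rcases hs with rfl | rfl
  · exact key ψ hψ
  · obtain ⟨ξ, hξ⟩ := exists_odd hd2
    have h1 := key (ψ * DirichletCharacter.changeLevel hdq ξ) (coset_primitive hd ψ hψ ξ)
    rw [cnt_odd hdq ψ ξ hξ] at h1
    exact h1

end Pool.Agent.NVT
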