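import Pool.Agent.Lib.MP_afd523_nt.Theta

/-!
Functional equation of the theta series of a primitive character of any modulus `q > 1`, with the
explicit root number (MP_afd523_nt, project NVT: thin cosets of composite modulus).
-/

namespace Pool.Agent.NVT

open Finset Complex MeasureTheory Pool.Agent.NV

open scoped ZMod in
/-- product of the Gauss sums of `χ` and `χ⁻¹` -/
lemma gauss_mul_inv {q : ℕ} [NeZero q] (χ : DirichletCharacter ℂ q) (hχ : χ.IsPrimitive) :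
    gaussSum χ (ZMod.stdAddChar : AddChar (ZMod q) ℂ) *
      gaussSum χ⁻¹ (ZMod.stdAddChar : AddChar (ZMod q) ℂ) = χ (-1) * q := by
  have h1 : 𝓕 (χ : ZMod q → ℂ) = fun k => gaussSum χ (ZMod.stdAddChar : AddChar (ZMod q) ℂ) *
      χ⁻¹ (-k) := by
    funext k
    rw [hχ.fourierTransform_eq_inv_mul_gaussSum k, mul_comm]
  have h2 := congrFun (ZMod.dft_dft (χ : ZMod q → ℂ)) 1
  rw [h1, ZMod.dft_const_mul, ZMod.dft_comp_neg (fun k => χ⁻¹ k)] at h2
  simp only [smul_eq_mul] at h2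
  rw [DirichletCharacter.fourierTransform_eq_gaussSum_mulShift, neg_neg, AddChar.mulShift_one] at h2
  rw [h2, mul_comm]

/-- the conjugate Gauss sum -/
lemma star_gauss {q : ℕ} [NeZero q] (χ : DirichletCharacter ℂ q) :
    (starRingEnd ℂ) (gaussSum χ (ZMod.stdAddChar : AddChar (ZMod q) ℂ)) =
      χ (-1) * gaussSum χ⁻¹ (ZMod.stdAddChar : AddChar (ZMod q) ℂ) := by
  unfold gaussSum
  rw [map_sum, Finset.mul_sum, ← Equiv.sum_comp (Equiv.neg (ZMod q))]
  refine Finset.sum_congr rfl fun x _ => ?_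
  rw [map_mul, ← AddChar.map_neg_eq_conj, Equiv.neg_apply, neg_neg]
  have h1 : (starRingEnd ℂ) (χ (-x)) = χ⁻¹ (-x) := by
    rw [← MulChar.star_eq_inv, MulChar.star_apply]
    rfl
  have h2 : χ (-1) = χ⁻¹ (-1) := by
    rw [MulChar.inv_apply_eq_inv']
    have h : χ (-1) * χ (-1) = 1 := by
      rw [← map_mul]; simp
    exact eq_inv_of_mul_eq_one_left h
  rw [h1, h2, ← neg_one_mul x, map_mul, ← mul_assoc]

/-- the norm of the Gauss sum of a primitive character -/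
lemma norm_gauss {q : ℕ} [NeZero q] (χ : DirichletCharacter ℂ q) (hχ : χ.IsPrimitive) :
    ‖gaussSum χ (ZMod.stdAddChar : AddChar (ZMod q) ℂ)‖ = √q := by
  have h1 := gauss_mul_inv χ hχ
  have h2 := star_gauss χ
  have hm : χ (-1) * χ (-1) = 1 := by
    rw [← map_mul]; simp
  have h3 : gaussSum χ (ZMod.stdAddChar : AddChar (ZMod q) ℂ) *
      (starRingEnd ℂ) (gaussSum χ (ZMod.stdAddChar : AddChar (ZMod q) ℂ)) = q := by
    rw [h2]
    linear_combination χ (-1) * h1 + (q : ℂ) * hm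
  rw [Complex.mul_conj, Complex.normSq_eq_norm_sq] at h3
  have h4 : ‖gaussSum χ (ZMod.stdAddChar : AddChar (ZMod q) ℂ)‖ ^ 2 = q := by
    exact_mod_cast h3
  rw [← h4, Real.sqrt_sq (norm_nonneg _)]

lemma ThetaP_half {q : ℕ} [NeZero q] (hq : 1 < q) (χ : DirichletCharacter ℂ q)
    (e : ℕ) (he : χ (-1) = (-1) ^ e) (t : ℝ) (S : ℂ)
    (hS : HasSum (fun n : ℤ => χ (n : ZMod q) *
      ((n : ℂ) ^ e * Complex.exp (-(Real.pi * (n : ℂ) ^ 2 * t / q)))) S) :
    theta χ e t = S / 2 := by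
  have : Fact (1 < q) := ⟨hq⟩
  have h0 : χ (0 : ZMod q) = 0 := MulChar.map_nonunit χ (by simp)
  have h := hS.nat_add_neg
  have h2 : HasSum (fun n : ℕ => 2 * (χ (n : ZMod q) * (n : ℂ) ^ e *
      Complex.exp (-(Real.pi * n ^ 2 * t / q)))) S := by
    have h3 : S + χ ((0 : ℤ) : ZMod q) * (((0 : ℤ) : ℂ) ^ e *
        Complex.exp (-(Real.pi * ((0 : ℤ) : ℂ) ^ 2 * t / q))) = S := by
      rw [Int.cast_zero, h0]; simp
    rw [h3] at h
    refine h.congr_fun fun n => ?_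
    have h4 : χ (((-(n : ℤ) : ℤ)) : ZMod q) = (-1) ^ e * χ (n : ZMod q) := by
      push_cast
      rw [← neg_one_mul, map_mul, he]
    rw [h4]
    push_cast
    have h5 : (-(n : ℂ)) ^ e = (-1) ^ e * (n : ℂ) ^ e := by
      rw [← mul_pow, neg_one_mul]
    rw [h5, neg_sq]
    have h6 : ((-1 : ℂ) ^ e) * (-1) ^ e = 1 := by
      rw [← mul_pow]; simp
    linear_combination (χ (n : ZMod q) * (n : ℂ) ^ e *
      Complex.exp (-(Real.pi * n ^ 2 * t / q))) * (-h6)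
  have h7 := (h2.div_const 2).tsum_eq
  unfold theta
  rw [← h7]
  congr 1
  ext n
  ring

/-- the root number -/
noncomputable def rn {q : ℕ} [NeZero q] (χ : DirichletCharacter ℂ q) (e : ℕ) : ℂ :=
  (-I) ^ e * gaussSum χ (ZMod.stdAddChar : AddChar (ZMod q) ℂ) / (√q : ℝ)

lemma norm_rn {q : ℕ} [NeZero q] (χ : DirichletCharacter ℂ q) (hχ : χ.IsPrimitive) (e : ℕ) :
    ‖rn χ e‖ = 1 := by
  have hq0 : (0 : ℝ) < q := by exact_mod_cast NeZero.pos q
  have hsq : (0 : ℝ) < √q := Real.sqrt_pos.2 hq0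
  rw [rn, norm_div, norm_mul, norm_pow, norm_neg, norm_I, one_pow, one_mul, norm_gauss χ hχ,
    Complex.norm_real, Real.norm_of_nonneg hsq.le, div_self hsq.ne']

theorem thetaP_fe {q : ℕ} [NeZero q] (hq : 1 < q) (χ : DirichletCharacter ℂ q)
    (hχ : χ.IsPrimitive) {e : ℕ} (he1 : e ≤ 1) (he : χ (-1) = (-1) ^ e) :
    ∀ t : ℝ, 0 < t →
      theta χ e (1 / t) = rn χ e * (t : ℂ) ^ (1 / 2 + e : ℂ) * theta χ⁻¹ e t := by
  have : Fact (1 < q) := ⟨hq⟩
  have hq0 : (0 : ℝ) < q := by exact_mod_cast (lt_trans one_pos hq)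
  have hqc : (q : ℂ) ≠ 0 := by exact_mod_cast hq0.ne'
  have hei : χ⁻¹ (-1) = (-1) ^ e := by
    rw [MulChar.inv_apply_eq_inv', he]
    rw [← inv_pow]
    norm_num
  set G : ℂ := gaussSum χ (ZMod.stdAddChar : AddChar (ZMod q) ℂ) with hG
  have hGn : ‖G‖ = √q := norm_gauss χ hχ
  obtain ⟨E, C, hE, hC, hEC⟩ := Theta_kernels e he1
  have hsq : (0 : ℝ) < √q := Real.sqrt_pos.2 hq0
  intro t ht
  have htq : 0 < t / q := div_pos ht hq0
  -- the sum of characters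
  have hgs : ∀ n : ℤ, ∑ j : ZMod q, χ j * Complex.exp (2 * Real.pi * I * ((j.val : ℝ) / q : ℝ) * n)
      = χ⁻¹ (n : ZMod q) * G := by
    intro n
    rw [hG, ← gaussSum_mulShift_of_isPrimitive (e := (ZMod.stdAddChar : AddChar (ZMod q) ℂ))
      hχ (n : ZMod q)]
    unfold gaussSum
    refine Finset.sum_congr rfl fun j _ => ?_
    congr 1
    rw [AddChar.mulShift_apply]
    have h1 : ((n : ZMod q) * j) = (((n * (j.val : ℤ) : ℤ)) : ZMod q) := by
      push_cast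
      simp
    rw [h1, ZMod.stdAddChar_coe]
    congr 1
    push_cast
    field_simp
  -- dual sum
  have hS' : HasSum (fun n : ℤ => (-I) ^ e * G * (χ⁻¹ (n : ZMod q) *
      ((n : ℂ) ^ e * Complex.exp (-(Real.pi * (n : ℂ) ^ 2 * t / q)))))
      (∑ j : ZMod q, χ j * C ((j.val : ℝ) / q) (t / q)) := by
    have h1 := hasSum_sum (s := (Finset.univ : Finset (ZMod q)))
      (fun j _ => (hC ((j.val : ℝ) / q) (t / q) htq).mul_left (χ j))
    refine h1.congr_fun fun n => ?_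
    have h2 : ∀ j : ZMod q, χ j * ((-I) ^ e * (n : ℂ) ^ e *
        Complex.exp (2 * Real.pi * I * ((j.val : ℝ) / q : ℝ) * n) *
        Complex.exp (-(Real.pi * (n : ℂ) ^ 2 * ((t / q : ℝ) : ℂ)))) =
        (χ j * Complex.exp (2 * Real.pi * I * ((j.val : ℝ) / q : ℝ) * n)) * ((-I) ^ e *
          (n : ℂ) ^ e * Complex.exp (-(Real.pi * (n : ℂ) ^ 2 * t / q))) := by
      intro j
      have h3 : Complex.exp (-(Real.pi * (n : ℂ) ^ 2 * ((t / q : ℝ) : ℂ))) =
          Complex.exp (-(Real.pi * (n : ℂ) ^ 2 * t / q)) := by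
        congr 1
        push_cast
        ring
      rw [h3]
      ring
    rw [Finset.sum_congr rfl fun j _ => h2 j, ← Finset.sum_mul, hgs n]
    ring
  have hcne : (-I) ^ e * G ≠ 0 := by
    apply mul_ne_zero (pow_ne_zero _ (neg_ne_zero.2 I_ne_zero))
    intro h
    rw [h, norm_zero] at hGn
    exact hsq.ne hGn
  have hS'' := (hasSum_mul_left_iff hcne (a₁ := ((-I) ^ e * G)⁻¹ *
    ∑ j : ZMod q, χ j * C ((j.val : ℝ) / q) (t / q))).1 (by
      rw [mul_inv_cancel_left₀ hcne]; exact hS')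
  have hθ' := ThetaP_half hq χ⁻¹ e hei t _ hS''
  -- the original sum
  have hS1 : HasSum (fun n : ℤ => χ (n : ZMod q) *
      ((n : ℂ) ^ e * Complex.exp (-(Real.pi * (n : ℂ) ^ 2 * ((1 / t : ℝ) : ℂ) / q))))
      (∑ j : ZMod q, χ j * ((q : ℂ) ^ e * E ((j.val : ℝ) / q) (1 / (t / q)))) := by
    refine Theta_residue χ _ _ fun j => ?_
    have h1 := (hE ((j.val : ℝ) / q) (1 / (t / q)) (by positivity)).mul_left ((q : ℂ) ^ e)
    refine h1.congr_fun fun m => ?_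
    push_cast
    have h2 : ((m : ℂ) * q + (j.val : ℂ)) = q * ((m : ℂ) + (j.val : ℂ) / q) := by
      field_simp
    rw [h2, mul_pow, mul_assoc]
    congr 2
    congr 1
    have htc : (t : ℂ) ≠ 0 := by exact_mod_cast ht.ne'
    field_simp
  have hθ := ThetaP_half hq χ e he (1 / t) _ hS1
  rw [hθ, hθ']
  have h8 : ∑ j : ZMod q, χ j * ((q : ℂ) ^ e * E ((j.val : ℝ) / q) (1 / (t / q))) =
      ((q : ℂ) ^ e * ((t / q : ℝ) : ℂ) ^ (1 / 2 + e : ℂ)) *
        ∑ j : ZMod q, χ j * C ((j.val : ℝ) / q) (t / q) := by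
    rw [Finset.mul_sum]
    refine Finset.sum_congr rfl fun j _ => ?_
    rw [hEC _ _ htq]
    ring
  have h9 : (q : ℂ) ^ e * ((t / q : ℝ) : ℂ) ^ (1 / 2 + e : ℂ) =
      (t : ℂ) ^ (1 / 2 + e : ℂ) / (√q : ℝ) := by
    have h10 : ((t / q : ℝ) : ℂ) ^ (1 / 2 + e : ℂ) = (((t / q) ^ (1 / 2 + e : ℝ) : ℝ) : ℂ) := by
      rw [Complex.ofReal_cpow htq.le]
      push_cast
      rfl
    have h11 : (t : ℂ) ^ (1 / 2 + e : ℂ) = ((t ^ (1 / 2 + e : ℝ) : ℝ) : ℂ) := by
      rw [Complex.ofReal_cpow ht.le]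
      push_cast
      rfl
    rw [h10, h11, Real.div_rpow ht.le hq0.le, Real.rpow_add hq0, Real.rpow_natCast,
      ← Real.sqrt_eq_rpow]
    have h12 : ((√q : ℝ) : ℂ) ≠ 0 := by exact_mod_cast hsq.ne'
    push_cast
    field_simp
  rw [h8, h9, rn, ← hG]
  have h13 : ((-I) ^ e * G) * ((-I) ^ e * G)⁻¹ = 1 := mul_inv_cancel₀ hcne
  linear_combination (-((t : ℂ) ^ (1 / 2 + e : ℂ) / (√q : ℝ) *
    (∑ j : ZMod q, χ j * C ((j.val : ℝ) / q) (t / q)) / 2)) * h13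

end Pool.Agent.NVT
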