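import Pool.Agent.Lib.MP_afd523_nt_T.Mom

/-!
MP_afd523_nt, project NVT: the weighted sums over one class modulo `d`.
-/

namespace Pool.Agent.NVT

open Finset Complex Pool.Agent.NV

variable {e : ℕ}

lemma Av_conj (e : ℕ) (T : ℝ) (f : ℕ → ℂ) :
    Av e T (fun n => (starRingEnd ℂ) (f n)) = (starRingEnd ℂ) (Av e T f) := by
  unfold Av
  rw [Complex.conj_tsum]
  refine tsum_congr fun n => ?_
  simp only [map_div₀, map_mul, Complex.conj_ofReal]

/-- the representative in `[1, d - 1]` -/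
lemma rep_pos {d : ℕ} [NeZero d] (hd2 : 2 ≤ d) (b : (ZMod d)ˣ) : 1 ≤ (b : ZMod d).val := by
  have : Fact (1 < d) := ⟨hd2⟩
  rw [Nat.one_le_iff_ne_zero]
  intro h
  rw [ZMod.val_eq_zero] at h
  exact b.ne_zero h

lemma rep_lt {d : ℕ} [NeZero d] (b : (ZMod d)ˣ) : (b : ZMod d).val < d := ZMod.val_lt _

lemma rep_iff {d : ℕ} [NeZero d] (hd2 : 2 ≤ d) (b : (ZMod d)ˣ) {n : ℕ} (hn : n ≤ d) :
    (n : ZMod d) = b ↔ n = (b : ZMod d).val := by
  have h1 := rep_pos hd2 b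
  constructor
  · intro h
    rcases Nat.lt_or_ge n d with h2 | h2
    · rw [← h, ZMod.val_natCast_of_lt h2]
    · have h3 : n = d := le_antisymm hn h2
      rw [h3, ZMod.natCast_self] at h
      rw [← h, ZMod.val_zero] at h1
      omega
  · intro h
    rw [h, ZMod.natCast_zmod_val]

/-- the part of a class beyond `d` -/
noncomputable def tail {q d : ℕ} (ψ : DirichletCharacter ℂ q) (b : ZMod d) (n : ℕ) : ℂ :=
  if d < n then FF ψ b n else 0

lemma tail_norm {q d : ℕ} (ψ : DirichletCharacter ℂ q) (b : ZMod d) (n : ℕ) :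
    ‖tail ψ b n‖ ≤ 1 := by
  unfold tail
  split_ifs
  · exact FF_norm ψ b n
  · simp

lemma tail_sum {q d : ℕ} (ψ : DirichletCharacter ℂ q) (b : ZMod d) (N : ℕ) :
    ∑ n ∈ Icc 1 N, tail ψ b n =
      ∑ n ∈ (Ioc d N).filter (fun n : ℕ => (n : ZMod d) = b), ψ (n : ZMod q) := by
  classical
  rw [Finset.sum_filter]
  have h1 : ∑ n ∈ Ioc d N, (if (n : ZMod d) = b then ψ (n : ZMod q) else 0) =
      ∑ n ∈ Ioc d N, tail ψ b n := by
    refine Finset.sum_congr rfl fun n hn => ?_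
    rw [tail, if_pos (Finset.mem_Ioc.1 hn).1, FF]
  rw [h1]
  symm
  apply Finset.sum_subset
  · intro n hn
    rw [Finset.mem_Ioc] at hn
    rw [Finset.mem_Icc]
    omega
  · intro n hn hn2
    rw [Finset.mem_Icc] at hn
    rw [Finset.mem_Ioc] at hn2
    rw [tail, if_neg (by omega)]

lemma FF_split {q d : ℕ} [NeZero d] (hd2 : 2 ≤ d) (ψ : DirichletCharacter ℂ q) (b : (ZMod d)ˣ)
    (n : ℕ) : FF ψ (b : ZMod d) n =
      (if n = (b : ZMod d).val then ψ ((b : ZMod d).val : ZMod q) else 0) + tail ψ (b : ZMod d) n := by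
  unfold tail
  by_cases h : d < n
  · have h1 := rep_lt b
    rw [if_pos h, if_neg (by omega), zero_add]
  · rw [if_neg h, add_zero, FF]
    have h2 := rep_iff hd2 b (Nat.le_of_not_lt h)
    by_cases h3 : n = (b : ZMod d).val
    · rw [if_pos (h2.2 h3), if_pos h3, ← h3]
    · rw [if_neg (fun h4 => h3 (h2.1 h4)), if_neg h3]

lemma Av_add (he : e ≤ 1) {T : ℝ} (hT : 0 < T) (f g : ℕ → ℂ) (hf : ∀ n, ‖f n‖ ≤ 1)
    (hg : ∀ n, ‖g n‖ ≤ 1) : Av e T (fun n => f n + g n) = Av e T f + Av e T g := by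
  have h := Av_lin he hT (Finset.univ : Finset (Fin 2)) ![1, 1] (fun i => ![f, g] i)
    (fun i n => by fin_cases i <;> simp [hf, hg])
  simp only [Fin.sum_univ_two, Matrix.cons_val_zero, Matrix.cons_val_one, one_mul] at h
  exact h.symm

lemma Av_single (e : ℕ) (T : ℝ) (b : ℕ) (z : ℂ) :
    Av e T (fun n => if n = b then z else 0) = (wV e T b : ℂ) * z / (√(b : ℝ) : ℂ) := by
  unfold Av
  rw [tsum_eq_single b]
  · simp
  · intro n hn
    simp [hn]

/-- the main term and the error term of a class -/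
theorem alpha_main (he : e ≤ 1) {q d : ℕ} [NeZero q] [NeZero d] (hd2 : 2 ≤ d)
    (ψ : DirichletCharacter ℂ q) (b : (ZMod d)ˣ) (D1 D2 : ℝ) (hD1 : 0 ≤ D1) (hD2 : 0 ≤ D2)
    (h : ∀ N : ℕ, ‖∑ n ∈ (Ioc d N).filter (fun n : ℕ => (n : ZMod d) = b), ψ (n : ZMod q)‖ ≤
        D1 * √N + D2 * N) :
    ‖Av e (√q) (FF ψ (b : ZMod d)) - (wV e (√q) (b : ZMod d).val : ℂ) *
      ψ ((b : ZMod d).val : ZMod q) / (√((b : ZMod d).val : ℝ) : ℂ)‖ ≤
      (1 + m1 e) * (D1 * (1 + Real.log q) + D2 * (q : ℝ) ^ (1 / 4 : ℝ)) := by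
  have hq1 : (1 : ℝ) ≤ q := by exact_mod_cast NeZero.pos q
  have hs1 : 1 ≤ √(q : ℝ) := Real.one_le_sqrt.2 hq1
  have hs0 : 0 < √(q : ℝ) := by linarith
  have hm := m1_nonneg he
  have h1 : FF ψ (b : ZMod d) = fun n =>
      (if n = (b : ZMod d).val then ψ ((b : ZMod d).val : ZMod q) else 0) +
        tail ψ (b : ZMod d) n := by
    funext n
    exact FF_split hd2 ψ b n
  rw [h1, Av_add he hs0 _ _ (fun n => by
    split_ifs
    · exact ψ.norm_le_one _
    · simp) (tail_norm ψ _), Av_single, add_sub_cancel_left]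
  have h2 := Av_bound he hs1 (tail ψ (b : ZMod d)) (tail_norm ψ _) D1 D2 hD1 hD2
    (fun N => by rw [tail_sum]; exact h N)
  refine h2.trans ?_
  have h3 : √(√(q : ℝ)) = (q : ℝ) ^ (1 / 4 : ℝ) := by
    rw [Real.sqrt_eq_rpow, Real.sqrt_eq_rpow, ← Real.rpow_mul (by linarith)]
    norm_num
  have h4 : Real.log √(q : ℝ) ≤ Real.log q := by
    apply Real.log_le_log hs0
    rw [Real.sqrt_le_left (by linarith)]
    nlinarith
  rw [h3]
  have h5 : D1 * (1 + Real.log √(q : ℝ)) ≤ D1 * (1 + Real.log q) :=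
    mul_le_mul_of_nonneg_left (by linarith) hD1
  exact mul_le_mul_of_nonneg_left (by linarith) (by linarith)

/-- the bound of one class -/
lemma alpha_le (he : e ≤ 1) {q d : ℕ} [NeZero q] [NeZero d] (hd2 : 2 ≤ d)
    (ψ : DirichletCharacter ℂ q) (b : (ZMod d)ˣ) (E : ℝ)
    (h : ‖Av e (√q) (FF ψ (b : ZMod d)) - (wV e (√q) (b : ZMod d).val : ℂ) *
      ψ ((b : ZMod d).val : ZMod q) / (√((b : ZMod d).val : ℝ) : ℂ)‖ ≤ E) :
    ‖Av e (√q) (FF ψ (b : ZMod d))‖ ≤ 1 / √((b : ZMod d).val : ℝ) + E := by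
  have hb := rep_pos hd2 b
  have hb0 : 0 < √((b : ZMod d).val : ℝ) := Real.sqrt_pos.2 (by exact_mod_cast hb)
  have h1 : ‖(wV e (√q) (b : ZMod d).val : ℂ) *
      ψ ((b : ZMod d).val : ZMod q) / (√((b : ZMod d).val : ℝ) : ℂ)‖ ≤
      1 / √((b : ZMod d).val : ℝ) := by
    rw [norm_div, norm_mul, Complex.norm_real, Complex.norm_real,
      Real.norm_of_nonneg (wV_nonneg e _ _), Real.norm_of_nonneg hb0.le]
    have h2 := wV_le_one he (√q) (b : ZMod d).val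
    have h3 := ψ.norm_le_one ((b : ZMod d).val : ZMod q)
    have h4 := wV_nonneg e (√q) (b : ZMod d).val
    gcongr
    calc wV e (√q) (b : ZMod d).val * ‖ψ ((b : ZMod d).val : ZMod q)‖ ≤ 1 * 1 :=
          mul_le_mul h2 h3 (norm_nonneg _) zero_le_one
      _ = 1 := one_mul 1
  have h5 := norm_sub_norm_le (Av e (√q) (FF ψ (b : ZMod d))) ((wV e (√q) (b : ZMod d).val : ℂ) *
      ψ ((b : ZMod d).val : ZMod q) / (√((b : ZMod d).val : ℝ) : ℂ))
  linarith

/-- lower bound for one class -/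
lemma alpha_ge {q d : ℕ} [NeZero q] [NeZero d]
    (ψ : DirichletCharacter ℂ q) (b : (ZMod d)ˣ) (hbq : IsUnit ((b : ZMod d).val : ZMod q)) (E : ℝ)
    (h : ‖Av e (√q) (FF ψ (b : ZMod d)) - (wV e (√q) (b : ZMod d).val : ℂ) *
      ψ ((b : ZMod d).val : ZMod q) / (√((b : ZMod d).val : ℝ) : ℂ)‖ ≤ E) :
    wV e (√q) (b : ZMod d).val / √((b : ZMod d).val : ℝ) - E ≤
      ‖Av e (√q) (FF ψ (b : ZMod d))‖ := by
  have h1 : ‖(wV e (√q) (b : ZMod d).val : ℂ) *
      ψ ((b : ZMod d).val : ZMod q) / (√((b : ZMod d).val : ℝ) : ℂ)‖ =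
      wV e (√q) (b : ZMod d).val / √((b : ZMod d).val : ℝ) := by
    rw [norm_div, norm_mul, Complex.norm_real, Complex.norm_real,
      Real.norm_of_nonneg (wV_nonneg e _ _), Real.norm_of_nonneg (Real.sqrt_nonneg _)]
    obtain ⟨u, hu⟩ := hbq
    rw [← hu, DirichletCharacter.unit_norm_eq_one, mul_one]
  have h5 := norm_sub_norm_le ((wV e (√q) (b : ZMod d).val : ℂ) *
      ψ ((b : ZMod d).val : ZMod q) / (√((b : ZMod d).val : ℝ) : ℂ))
      (Av e (√q) (FF ψ (b : ZMod d)))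
  rw [norm_sub_rev] at h5
  rw [h1] at h5
  linarith

end Pool.Agent.NVT
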