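import Pool.Agent.Lib.MP_afd523_nt_T.ThetaP

/-!
MP_afd523_nt, project NVT: characters of the coset, classes of Gauss sums.
-/

namespace Pool.Agent.NVT

open Finset Complex Pool.Agent.NV

lemma dvd_of_sq {q d : ℕ} (hd : d ^ 2 ∣ q) : d ∣ q := (dvd_pow_self d two_ne_zero).trans hd

lemma dvd_of_lcm {q d c : ℕ} (hq : q ≠ 0) (hc : c ≠ 0) (hd : d ^ 2 ∣ q)
    (h : q ∣ Nat.lcm c d) : q ∣ c := by
  have hd0 : d ≠ 0 := by
    rintro rfl
    exact hq (by simpa using hd)
  rw [← Nat.factorization_le_iff_dvd hq hc]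
  intro p
  have h1 := (Nat.factorization_le_iff_dvd (pow_ne_zero 2 hd0) hq).2 hd p
  have h2 := (Nat.factorization_le_iff_dvd hq (Nat.lcm_ne_zero hc hd0)).2 h p
  rw [Nat.factorization_lcm hc hd0, Finsupp.sup_apply] at h2
  rw [Nat.factorization_pow, Finsupp.smul_apply, smul_eq_mul] at h1
  omega

/-- characters of the coset are primitive -/
lemma coset_primitive {q d : ℕ} [NeZero q] [NeZero d] (hd : d ^ 2 ∣ q)
    (ψ : DirichletCharacter ℂ q) (hψ : ψ.IsPrimitive) (χ : DirichletCharacter ℂ d) :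
    (ψ * DirichletCharacter.changeLevel (dvd_of_sq hd) χ).IsPrimitive := by
  set X := ψ * DirichletCharacter.changeLevel (dvd_of_sq hd) χ with hX
  have h1 : ψ = X * (DirichletCharacter.changeLevel (dvd_of_sq hd) χ)⁻¹ := by
    rw [hX, mul_inv_cancel_right]
  have h2 := DirichletCharacter.conductor_mul_dvd_lcm_conductor X
    (DirichletCharacter.changeLevel (dvd_of_sq hd) χ)⁻¹
  rw [← h1, DirichletCharacter.conductor_inv, DirichletCharacter.conductor_changeLevel] at h2
  have h3 : ψ.conductor = q := hψ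
  rw [h3] at h2
  have h4 : q ∣ Nat.lcm X.conductor d :=
    h2.trans (Nat.lcm_dvd (Nat.dvd_lcm_left _ _)
      ((DirichletCharacter.conductor_dvd_level χ).trans (Nat.dvd_lcm_right _ _)))
  have h5 := dvd_of_lcm (NeZero.ne q) X.conductor_ne_zero hd h4
  exact Nat.dvd_antisymm X.conductor_dvd_level h5

/-- values of the characters of the coset -/
lemma coset_apply {q d : ℕ} [NeZero q] [NeZero d] (hd : d ∣ q)
    (ψ : DirichletCharacter ℂ q) (χ : DirichletCharacter ℂ d) (x : ZMod q) :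
    (ψ * DirichletCharacter.changeLevel hd χ) x = ψ x * χ (ZMod.castHom hd (ZMod d) x) := by
  rw [MulChar.mul_apply]
  by_cases hx : IsUnit x
  · obtain ⟨u, rfl⟩ := hx
    rw [DirichletCharacter.changeLevel_eq_cast_of_dvd]
    rfl
  · rw [ψ.map_nonunit hx, zero_mul, zero_mul]

/-- the part of the Gauss sum over a class modulo `d` -/
noncomputable def KK {q d : ℕ} [NeZero q] (hd : d ∣ q) (ψ : DirichletCharacter ℂ q)
    (c : ZMod d) : ℂ :=
  ∑ x : ZMod q, if ZMod.castHom hd (ZMod d) x = c then ψ x * ZMod.stdAddChar x else 0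

lemma KK_shift {q d : ℕ} [NeZero q] [NeZero d] (hd : d ^ 2 ∣ q) (ψ : DirichletCharacter ℂ q)
    (c : ZMod d) : KK (dvd_of_sq hd) ψ c =
      ψ (1 + ((q / d : ℕ) : ZMod q)) * ZMod.stdAddChar c * KK (dvd_of_sq hd) ψ c := by
  classical
  have hdq := dvd_of_sq hd
  have hd0 : 0 < d := NeZero.pos d
  have hdm : d ∣ q / d := by
    obtain ⟨k, hk⟩ := hd
    rw [hk, pow_two, mul_assoc, Nat.mul_div_cancel_left _ hd0]
    exact dvd_mul_right _ _
  have hqm : q ∣ (q / d) * (q / d) := by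
    obtain ⟨k, hk⟩ := hdm
    have h1 : q = d * (q / d) := (Nat.mul_div_cancel' hdq).symm
    calc q = d * (q / d) := h1
      _ ∣ (d * k) * (q / d) := by
        rw [mul_assoc, mul_comm k, ← mul_assoc]
        exact dvd_mul_right _ _
      _ = (q / d) * (q / d) := by rw [← hk]
  set m : ZMod q := ((q / d : ℕ) : ZMod q) with hm
  have hmm : m * m = 0 := by
    rw [hm, ← Nat.cast_mul]
    exact (ZMod.natCast_eq_zero_iff _ _).2 hqm
  have hu : (1 + m) * (1 - m) = 1 := by linear_combination -hmm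
  let u : (ZMod q)ˣ := ⟨1 + m, 1 - m, hu, by rw [mul_comm]; exact hu⟩
  have hcm : ZMod.castHom hdq (ZMod d) m = 0 := by
    rw [hm, map_natCast]
    exact (ZMod.natCast_eq_zero_iff _ _).2 hdm
  have hcast : ∀ x : ZMod q, ZMod.castHom hdq (ZMod d) (x * (u : ZMod q)) =
      ZMod.castHom hdq (ZMod d) x := by
    intro x
    show ZMod.castHom hdq (ZMod d) (x * (1 + m)) = _
    rw [map_mul, map_add, map_one, hcm, add_zero, mul_one]
  have hadd : ∀ x : ZMod q, (ZMod.stdAddChar (x * (u : ZMod q)) : ℂ) =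
      ZMod.stdAddChar x * ZMod.stdAddChar (ZMod.castHom hdq (ZMod d) x) := by
    intro x
    show (ZMod.stdAddChar (x * (1 + m)) : ℂ) = _
    rw [mul_add, mul_one, AddChar.map_add_eq_mul]
    congr 1
    obtain ⟨n, rfl⟩ := ZMod.intCast_surjective x
    rw [map_intCast, hm]
    have h1 : ((n : ZMod q) * ((q / d : ℕ) : ZMod q)) = ((n * ((q / d : ℕ) : ℤ) : ℤ) : ZMod q) := by
      rw [Int.cast_mul, Int.cast_natCast]
    rw [h1, ZMod.stdAddChar_coe, ZMod.stdAddChar_coe]
    congr 1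
    have hq0 : (q : ℂ) ≠ 0 := by exact_mod_cast NeZero.ne q
    have hd0' : (d : ℂ) ≠ 0 := by exact_mod_cast hd0.ne'
    have h2 : ((q / d : ℕ) : ℂ) = (q : ℂ) / d := by
      rw [Nat.cast_div hdq hd0']
    rw [Int.cast_mul, Int.cast_natCast, h2]
    field_simp
  conv_lhs => rw [KK, ← Equiv.sum_comp (Units.mulRight u)]
  rw [KK, Finset.mul_sum]
  refine Finset.sum_congr rfl fun x _ => ?_
  rw [Units.mulRight_apply]
  simp only [hcast]
  by_cases hx : ZMod.castHom hdq (ZMod d) x = c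
  · rw [if_pos hx, if_pos hx, hadd, map_mul, hx]
    show ψ x * ψ (1 + m) * _ = _
    ring
  · rw [if_neg hx, if_neg hx, mul_zero]

lemma KK_sum {q d : ℕ} [NeZero q] [NeZero d] (hd : d ∣ q) (ψ : DirichletCharacter ℂ q) :
    ∑ c : ZMod d, KK hd ψ c = gaussSum ψ (ZMod.stdAddChar : AddChar (ZMod q) ℂ) := by
  classical
  unfold KK gaussSum
  rw [Finset.sum_comm]
  refine Finset.sum_congr rfl fun x _ => ?_
  rw [Finset.sum_ite_eq Finset.univ (ZMod.castHom hd (ZMod d) x)]
  simp

/-- the Gauss sum is concentrated on one class -/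
theorem KK_class {q d : ℕ} [NeZero q] [NeZero d] (hd : d ^ 2 ∣ q)
    (ψ : DirichletCharacter ℂ q) (hψ : ψ.IsPrimitive) :
    ∃ c₀ : (ZMod d)ˣ, ∀ c : ZMod d, KK (dvd_of_sq hd) ψ c =
      if c = c₀ then gaussSum ψ (ZMod.stdAddChar : AddChar (ZMod q) ℂ) else 0 := by
  classical
  have hdq := dvd_of_sq hd
  have hG : gaussSum ψ (ZMod.stdAddChar : AddChar (ZMod q) ℂ) ≠ 0 := by
    have h := norm_gauss ψ hψ
    have hq0 : (0 : ℝ) < q := by exact_mod_cast NeZero.pos q
    intro h0
    rw [h0, norm_zero] at h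
    exact (Real.sqrt_pos.2 hq0).ne h
  have h1 : ∃ c : ZMod d, KK hdq ψ c ≠ 0 := by
    by_contra hcon
    push Not at hcon
    apply hG
    rw [← KK_sum hdq ψ]
    exact Finset.sum_eq_zero fun c _ => hcon c
  obtain ⟨c, hc⟩ := h1
  have huniq : ∀ c' : ZMod d, KK hdq ψ c' ≠ 0 → c' = c := by
    intro c' hc'
    have h2 := KK_shift hd ψ c
    have h3 := KK_shift hd ψ c'
    have h4 : ψ (1 + ((q / d : ℕ) : ZMod q)) * ZMod.stdAddChar c = 1 := by
      apply mul_right_cancel₀ hc
      rw [one_mul]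
      exact h2.symm
    have h5 : ψ (1 + ((q / d : ℕ) : ZMod q)) * ZMod.stdAddChar c' = 1 := by
      apply mul_right_cancel₀ hc'
      rw [one_mul]
      exact h3.symm
    have h6 : ψ (1 + ((q / d : ℕ) : ZMod q)) ≠ 0 := by
      intro h0
      rw [h0, zero_mul] at h4
      exact zero_ne_one h4
    apply ZMod.injective_stdAddChar
    apply mul_left_cancel₀ h6
    rw [h4, h5]
  have hunit : IsUnit c := by
    by_contra hcu
    apply hc
    unfold KK
    refine Finset.sum_eq_zero fun x _ => ?_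
    by_cases hx : ZMod.castHom hdq (ZMod d) x = c
    · have hxu : ¬ IsUnit x := by
        intro hxu
        apply hcu
        rw [← hx]
        exact hxu.map (ZMod.castHom hdq (ZMod d))
      rw [if_pos hx, ψ.map_nonunit hxu, zero_mul]
    · rw [if_neg hx]
  obtain ⟨u, hu⟩ := hunit
  refine ⟨u, fun c' => ?_⟩
  by_cases hc' : c' = u
  · rw [if_pos hc', hc', hu, ← KK_sum hdq ψ]
    symm
    apply Finset.sum_eq_single c
    · intro b _ hb
      by_contra hb0
      exact hb (huniq b hb0)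
    · intro h
      exact absurd (Finset.mem_univ _) h
  · rw [if_neg hc']
    by_contra h0
    exact hc' (by rw [huniq c' h0, hu])

end Pool.Agent.NVT
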