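import Pool.Agent.Lib.MP_afd523_nt.Cut
import Pool.Agent.Lib.MP_afd523_nt_T.AfeP

/-!
MP_afd523_nt, project NVT: sums with the weight of the approximate functional equation.
-/

namespace Pool.Agent.NVT

open Finset Complex MeasureTheory Pool.Agent.NV

/-- the weight of the approximate functional equation -/
noncomputable def wV (e : ℕ) (T : ℝ) (n : ℕ) : ℝ := (nu e).real (Set.Ioi (n / T))

/-- the weighted sum -/
noncomputable def Av (e : ℕ) (T : ℝ) (f : ℕ → ℂ) : ℂ :=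
  ∑' n : ℕ, (wV e T n : ℂ) * f n / (Real.sqrt n : ℂ)

lemma sum_inv_sqrt (M : ℕ) : ∑ n ∈ Icc 1 M, 1 / √(n : ℝ) ≤ 2 * √(M : ℝ) := by
  induction M with
  | zero => simp
  | succ M ih =>
    rw [Finset.sum_Icc_succ_top (by omega)]
    have h1 : 0 ≤ √(M : ℝ) := Real.sqrt_nonneg _
    have h2 : 0 < √((M + 1 : ℕ) : ℝ) := Real.sqrt_pos.2 (by positivity)
    have h3 : √(M : ℝ) ^ 2 = M := Real.sq_sqrt (by positivity)
    have h4 : √((M + 1 : ℕ) : ℝ) ^ 2 = M + 1 := by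
      rw [Real.sq_sqrt (by positivity)]; push_cast; ring
    have h5 : 1 / √((M + 1 : ℕ) : ℝ) ≤ 2 * √((M + 1 : ℕ) : ℝ) - 2 * √(M : ℝ) := by
      rw [div_le_iff₀ h2]
      nlinarith [sq_nonneg (√((M + 1 : ℕ) : ℝ) - √(M : ℝ))]
    linarith

lemma sum_inv_le (M : ℕ) : ∑ n ∈ Icc 1 M, 1 / (n : ℝ) ≤ 1 + Real.log M := by
  have h := harmonic_le_one_add_log M
  rw [harmonic_eq_sum_Icc] at h
  push_cast at h
  simpa using h

variable {e : ℕ}

lemma wV_nonneg (e : ℕ) (T : ℝ) (n : ℕ) : 0 ≤ wV e T n := measureReal_nonneg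

lemma wV_le_one (he : e ≤ 1) (T : ℝ) (n : ℕ) : wV e T n ≤ 1 := by
  obtain ⟨C, hC⟩ := cut_nu
  have := (hC e he).prob
  exact measureReal_le_one

lemma wV_anti (he : e ≤ 1) {T : ℝ} (hT : 0 < T) {m n : ℕ} (h : m ≤ n) :
    wV e T n ≤ wV e T m := by
  obtain ⟨C, hC⟩ := cut_nu
  have := (hC e he).prob
  refine measureReal_mono (Set.Ioi_subset_Ioi ?_) (measure_ne_top _ _)
  have : (m : ℝ) ≤ n := by exact_mod_cast h
  gcongr

/-- general finite sums against the weight -/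
lemma sum_wV_le (he : e ≤ 1) {T : ℝ} (hT : 0 < T) (N : ℕ) (g : ℕ → ℝ) (A B : ℝ)
    (h : ∀ r : ℝ, 0 < r → ∑ n ∈ (Icc 1 N).filter (fun n : ℕ => (n : ℝ) < r * T), g n ≤
      A + B * r) :
    ∑ n ∈ Icc 1 N, wV e T n * g n ≤ A + B * ∫ r, r ∂(nu e) := by
  obtain ⟨C, hC⟩ := cut_nu
  have hc := hC e he
  have := hc.prob
  have hm : Integrable (fun r : ℝ => r) (nu e) := by simpa using hc.mom 1
  have h1 : ∀ n ∈ Icc 1 N, wV e T n * g n =
      ∫ r, (Set.Ioi ((n : ℝ) / T)).indicator (fun _ => g n) r ∂(nu e) := by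
    intro n _
    rw [integral_indicator_const _ measurableSet_Ioi, wV, smul_eq_mul]
  rw [Finset.sum_congr rfl h1, ← integral_finset_sum]
  · have h2 : A + B * ∫ r, r ∂(nu e) = ∫ r, (A + B * r) ∂(nu e) := by
      rw [integral_add (integrable_const _) (hm.const_mul _), integral_const_mul]
      simp
    rw [h2]
    refine integral_mono_ae ?_ ((integrable_const _).add (hm.const_mul _)) ?_
    · exact integrable_finset_sum _ fun n _ => (integrable_const _).indicator measurableSet_Ioi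
    · have h3 : ∀ᵐ r ∂(nu e), r ∉ Set.Iic (0 : ℝ) := measure_eq_zero_iff_ae_notMem.1 hc.pos
      filter_upwards [h3] with r hr
      have hr0 : 0 < r := not_le.1 hr
      refine le_trans (le_of_eq ?_) (h r hr0)
      rw [Finset.sum_filter]
      refine Finset.sum_congr rfl fun n _ => ?_
      by_cases hn : (n : ℝ) < r * T
      · rw [if_pos hn, Set.indicator_of_mem]
        rw [Set.mem_Ioi, div_lt_iff₀ hT]
        exact hn
      · rw [if_neg hn, Set.indicator_of_notMem]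
        rw [Set.mem_Ioi, div_lt_iff₀ hT]
        exact hn
  · exact fun n _ => (integrable_const _).indicator measurableSet_Ioi

/-- the first moment of the cut-off measures -/
noncomputable def m1 (e : ℕ) : ℝ := ∫ r, r ∂(nu e)

lemma m1_nonneg (he : e ≤ 1) : 0 ≤ m1 e := by
  obtain ⟨C, hC⟩ := cut_nu
  have hc := hC e he
  refine integral_nonneg_of_ae ?_
  have h3 : ∀ᵐ r ∂(nu e), r ∉ Set.Iic (0 : ℝ) := measure_eq_zero_iff_ae_notMem.1 hc.pos
  filter_upwards [h3] with r hr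
  exact (not_le.1 hr).le

lemma sum_w1 (he : e ≤ 1) {T : ℝ} (hT : 0 < T) (N : ℕ) :
    ∑ n ∈ Icc 1 N, wV e T n * (1 / √(n : ℝ)) ≤ √T * (1 + m1 e) := by
  have h := sum_wV_le he hT N (fun n => 1 / √(n : ℝ)) (√T) (√T) ?_
  · rw [m1]; linarith
  intro r hr
  have h1 : (Icc 1 N).filter (fun n : ℕ => (n : ℝ) < r * T) ⊆ Icc 1 ⌊r * T⌋₊ := by
    intro n hn
    rw [Finset.mem_filter, Finset.mem_Icc] at hn
    rw [Finset.mem_Icc]
    exact ⟨hn.1.1, Nat.le_floor hn.2.le⟩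
  refine (Finset.sum_le_sum_of_subset_of_nonneg h1 fun n _ _ => by positivity).trans ?_
  refine (sum_inv_sqrt _).trans ?_
  have h2 : √((⌊r * T⌋₊ : ℕ) : ℝ) ≤ √(r * T) :=
    Real.sqrt_le_sqrt (Nat.floor_le (by positivity))
  rw [Real.sqrt_mul hr.le] at h2
  have h3 : √r ^ 2 = r := Real.sq_sqrt hr.le
  have h4 : 0 ≤ √T := Real.sqrt_nonneg _
  have h5 : 2 * √r ≤ 1 + r := by nlinarith [sq_nonneg (√r - 1)]
  nlinarith

lemma sum_w2 (he : e ≤ 1) {T : ℝ} (hT : 1 ≤ T) (N : ℕ) :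
    ∑ n ∈ Icc 1 N, wV e T n * (1 / (n : ℝ)) ≤ 1 + Real.log T + m1 e := by
  have hT0 : 0 < T := by linarith
  have h := sum_wV_le he hT0 N (fun n => 1 / (n : ℝ)) (1 + Real.log T) 1 ?_
  · rw [m1]; linarith
  intro r hr
  have h1 : (Icc 1 N).filter (fun n : ℕ => (n : ℝ) < r * T) ⊆ Icc 1 ⌊r * T⌋₊ := by
    intro n hn
    rw [Finset.mem_filter, Finset.mem_Icc] at hn
    rw [Finset.mem_Icc]
    exact ⟨hn.1.1, Nat.le_floor hn.2.le⟩
  refine (Finset.sum_le_sum_of_subset_of_nonneg h1 fun n _ _ => by positivity).trans ?_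
  have hl : 0 ≤ Real.log T := Real.log_nonneg hT
  by_cases hx : r * T < 1
  · have : ⌊r * T⌋₊ = 0 := Nat.floor_eq_zero.2 hx
    rw [this]
    simp only [Finset.Icc_eq_empty_of_lt (show (0 : ℕ) < 1 by norm_num), Finset.sum_empty]
    nlinarith
  · push Not at hx
    refine (sum_inv_le _).trans ?_
    have h2 : Real.log (⌊r * T⌋₊ : ℕ) ≤ Real.log (r * T) := by
      apply Real.log_le_log
      · exact_mod_cast (Nat.floor_pos.2 hx)
      · exact Nat.floor_le (by positivity)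
    rw [Real.log_mul hr.ne' hT0.ne'] at h2
    have h3 := Real.log_le_sub_one_of_pos hr
    linarith

/-- Abel summation inequality -/
lemma abel_le (w : ℕ → ℝ) (f : ℕ → ℂ) (g : ℕ → ℝ) (hw0 : ∀ n, 0 ≤ w n)
    (hw : ∀ n, 1 ≤ n → w (n + 1) ≤ w n) (hg0 : g 0 = 0)
    (h : ∀ N, ‖∑ n ∈ Icc 1 N, f n‖ ≤ g N) (N : ℕ) :
    ‖∑ n ∈ Icc 1 N, (w n : ℂ) * f n‖ ≤ ∑ n ∈ Icc 1 N, w n * (g n - g (n - 1)) := by
  have key : ∀ (R : Type) [CommRing R] (u v : ℕ → R), ∀ M : ℕ,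
      ∑ n ∈ Icc 1 (M + 1), u n * v n = u (M + 1) * (∑ n ∈ Icc 1 (M + 1), v n) +
        ∑ n ∈ Icc 1 M, (u n - u (n + 1)) * (∑ k ∈ Icc 1 n, v k) := by
    intro R _ u v M
    induction M with
    | zero => simp
    | succ M ih =>
      rw [Finset.sum_Icc_succ_top (by omega), ih, Finset.sum_Icc_succ_top (a := 1) (b := M + 1)
        (by omega) (fun n => v n), Finset.sum_Icc_succ_top (a := 1) (b := M) (by omega)
        (fun n => (u n - u (n + 1)) * (∑ k ∈ Icc 1 n, v k))]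
      ring
  have hgs : ∀ M : ℕ, ∑ n ∈ Icc 1 M, (g n - g (n - 1)) = g M := by
    intro M
    induction M with
    | zero => simp [hg0]
    | succ M ih => rw [Finset.sum_Icc_succ_top (by omega), ih]; simp
  rcases N with _ | M
  · simp
  rw [key ℂ (fun n => (w n : ℂ)) f M, key ℝ w (fun n => g n - g (n - 1)) M]
  refine (norm_add_le _ _).trans (add_le_add ?_ ?_)
  · rw [norm_mul, Complex.norm_real, Real.norm_of_nonneg (hw0 _), hgs]
    exact mul_le_mul_of_nonneg_left (h _) (hw0 _)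
  · refine (norm_sum_le _ _).trans (Finset.sum_le_sum fun n hn => ?_)
    have hn1 : 1 ≤ n := (Finset.mem_Icc.1 hn).1
    rw [norm_mul, ← Complex.ofReal_sub, Complex.norm_real,
      Real.norm_of_nonneg (sub_nonneg.2 (hw n hn1)), hgs]
    exact mul_le_mul_of_nonneg_left (h _) (sub_nonneg.2 (hw n hn1))

/-- partial sums from `0` -/
lemma sum_range_Icc {M : Type} [AddCommMonoid M] (g : ℕ → M) (h0 : g 0 = 0) (N : ℕ) :
    ∑ n ∈ range (N + 1), g n = ∑ n ∈ Icc 1 N, g n := by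
  rw [Finset.sum_range_succ', h0, add_zero]
  induction N with
  | zero => simp
  | succ N ih => rw [Finset.sum_range_succ, ih, Finset.sum_Icc_succ_top (by omega)]

lemma w_summable (he : e ≤ 1) {T : ℝ} (hT : 0 < T) :
    Summable fun n : ℕ => wV e T n * (1 / √(n : ℝ)) := by
  have hm := m1_nonneg he
  have h0 : ∀ n : ℕ, 0 ≤ wV e T n * (1 / √(n : ℝ)) := fun n =>
    mul_nonneg (wV_nonneg e T n) (by positivity)
  refine summable_of_sum_range_le (c := √T * (1 + m1 e)) h0 fun N => ?_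
  calc ∑ n ∈ range N, wV e T n * (1 / √(n : ℝ))
      ≤ ∑ n ∈ range (N + 1), wV e T n * (1 / √(n : ℝ)) :=
        Finset.sum_le_sum_of_subset_of_nonneg (Finset.range_mono (Nat.le_succ N))
          fun n _ _ => h0 n
    _ = ∑ n ∈ Icc 1 N, wV e T n * (1 / √(n : ℝ)) := sum_range_Icc _ (by simp) N
    _ ≤ _ := sum_w1 he hT N

lemma Av_norm_term (T : ℝ) (f : ℕ → ℂ) (n : ℕ) :
    ‖(wV e T n : ℂ) * f n / (Real.sqrt n : ℂ)‖ = ‖f n‖ * (wV e T n * (1 / √(n : ℝ))) := by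
  rw [norm_div, norm_mul, Complex.norm_real, Complex.norm_real, Real.norm_of_nonneg
    (wV_nonneg e T n), Real.norm_of_nonneg (Real.sqrt_nonneg _)]
  ring

lemma Av_summable (he : e ≤ 1) {T : ℝ} (hT : 0 < T) (f : ℕ → ℂ) (K : ℝ) (hf : ∀ n, ‖f n‖ ≤ K) :
    Summable fun n : ℕ => (wV e T n : ℂ) * f n / (Real.sqrt n : ℂ) := by
  refine Summable.of_norm_bounded ((w_summable he hT).mul_left K) fun n => ?_
  rw [Av_norm_term]
  exact mul_le_mul_of_nonneg_right (hf n) (mul_nonneg (wV_nonneg e T n) (by positivity))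

/-- bound of the weighted sum by the partial sums of the coefficients -/
theorem Av_bound (he : e ≤ 1) {T : ℝ} (hT : 1 ≤ T) (f : ℕ → ℂ) (hf : ∀ n, ‖f n‖ ≤ 1) (D1 D2 : ℝ)
    (hD1 : 0 ≤ D1) (hD2 : 0 ≤ D2) (h : ∀ N : ℕ, ‖∑ n ∈ Icc 1 N, f n‖ ≤ D1 * √(N : ℝ) + D2 * N) :
    ‖Av e T f‖ ≤ (1 + m1 e) * (D1 * (1 + Real.log T) + D2 * √T) := by
  have hT0 : 0 < T := by linarith
  have hm := m1_nonneg he
  have hl : 0 ≤ Real.log T := Real.log_nonneg hT
  have hs := Av_summable he hT0 f 1 hf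
  have hlim := hs.hasSum.tendsto_sum_nat.norm
  refine le_of_tendsto' ((Filter.tendsto_add_atTop_iff_nat 1).2 hlim) fun N => ?_
  rw [sum_range_Icc _ (by simp) N]
  have h1 : ∀ n ∈ Icc 1 N, (wV e T n : ℂ) * f n / (Real.sqrt n : ℂ) =
      ((wV e T n / √(n : ℝ) : ℝ) : ℂ) * f n := by
    intro n _
    push_cast
    ring
  rw [Finset.sum_congr rfl h1]
  -- weight, constant at zero
  have h2 := abel_le (fun n => wV e T n / √(n : ℝ)) f (fun n => D1 * √(n : ℝ) + D2 * n)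
    (fun n => div_nonneg (wV_nonneg e T n) (Real.sqrt_nonneg _))
    (fun n hn => by
      have hn0 : (0 : ℝ) < n := by exact_mod_cast hn
      have h3 : √(n : ℝ) ≤ √((n + 1 : ℕ) : ℝ) := Real.sqrt_le_sqrt (by push_cast; linarith)
      have h4 : 0 < √(n : ℝ) := Real.sqrt_pos.2 hn0
      calc wV e T (n + 1) / √((n + 1 : ℕ) : ℝ) ≤ wV e T n / √((n + 1 : ℕ) : ℝ) := by
            gcongr
            exact wV_anti he hT0 (Nat.le_succ n)
        _ ≤ wV e T n / √(n : ℝ) := by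
            gcongr
            exact wV_nonneg e T n)
    (by simp) h N
  refine h2.trans ?_
  have h5 : ∀ n ∈ Icc 1 N, wV e T n / √(n : ℝ) * ((D1 * √(n : ℝ) + D2 * n) -
      (D1 * √((n - 1 : ℕ) : ℝ) + D2 * ((n - 1 : ℕ) : ℝ))) ≤
      D1 * (wV e T n * (1 / (n : ℝ))) + D2 * (wV e T n * (1 / √(n : ℝ))) := by
    intro n hn
    have hn1 : 1 ≤ n := (Finset.mem_Icc.1 hn).1
    have hn0 : (0 : ℝ) < n := by exact_mod_cast hn1
    have hw := wV_nonneg e T n
    rw [Nat.cast_sub hn1]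
    push_cast
    have h4 : 0 < √(n : ℝ) := Real.sqrt_pos.2 hn0
    have h6 : √(n : ℝ) ^ 2 = n := Real.sq_sqrt hn0.le
    have h7 : √((n : ℝ) - 1) ^ 2 = n - 1 := Real.sq_sqrt (by
      have : (1 : ℝ) ≤ n := by exact_mod_cast hn1
      linarith)
    have h8 : 0 ≤ √((n : ℝ) - 1) := Real.sqrt_nonneg _
    have h9 : √(n : ℝ) - √((n : ℝ) - 1) ≤ 1 / √(n : ℝ) := by
      rw [le_div_iff₀ h4]
      nlinarith
    have h10 : (D1 * √(n : ℝ) + D2 * n) - (D1 * √((n : ℝ) - 1) + D2 * ((n : ℝ) - 1)) ≤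
        D1 * (1 / √(n : ℝ)) + D2 := by
      nlinarith
    calc wV e T n / √(n : ℝ) * ((D1 * √(n : ℝ) + D2 * n) -
          (D1 * √((n : ℝ) - 1) + D2 * ((n : ℝ) - 1)))
        ≤ wV e T n / √(n : ℝ) * (D1 * (1 / √(n : ℝ)) + D2) :=
          mul_le_mul_of_nonneg_left h10 (by positivity)
      _ = D1 * (wV e T n * (1 / (√(n : ℝ) ^ 2))) + D2 * (wV e T n * (1 / √(n : ℝ))) := by
          field_simp
      _ = _ := by rw [h6]
  refine (Finset.sum_le_sum h5).trans ?_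
  rw [Finset.sum_add_distrib, ← Finset.mul_sum, ← Finset.mul_sum]
  have h6 := sum_w2 he hT N
  have h7 := sum_w1 he hT0 N
  have h8 : 1 + Real.log T + m1 e ≤ (1 + m1 e) * (1 + Real.log T) := by nlinarith
  have h9 : D1 * ∑ n ∈ Icc 1 N, wV e T n * (1 / (n : ℝ)) ≤
      D1 * ((1 + m1 e) * (1 + Real.log T)) := mul_le_mul_of_nonneg_left (h6.trans h8) hD1
  have h10 : D2 * ∑ n ∈ Icc 1 N, wV e T n * (1 / √(n : ℝ)) ≤ D2 * (√T * (1 + m1 e)) :=
    mul_le_mul_of_nonneg_left h7 hD2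
  nlinarith

/-- the weight is close to one near zero -/
lemma wV_low : ∃ K : ℝ, 0 < K ∧ ∀ e : ℕ, e ≤ 1 → ∀ (T : ℝ) (n : ℕ), 0 < T → 0 < n →
    (n : ℝ) ≤ T → 1 - K * √(n / T) ≤ wV e T n := by
  obtain ⟨C, hC⟩ := cut_nu
  refine ⟨|C| + 1, by positivity, fun e he T n hT hn hnT => ?_⟩
  have hc := hC e he
  have := hc.prob
  have h1 := hc.ball (n / T) (by positivity) (by rw [div_le_one hT]; exact hnT)
  have h2 : (nu e).real (Set.Ioi ((n : ℝ) / T)) = 1 - (nu e).real (Set.Iic ((n : ℝ) / T)) := by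
    rw [← Set.compl_Iic, probReal_compl_eq_one_sub measurableSet_Iic]
  rw [wV, h2]
  have h3 : C * √((n : ℝ) / T) ≤ (|C| + 1) * √((n : ℝ) / T) :=
    mul_le_mul_of_nonneg_right (by linarith [le_abs_self C]) (Real.sqrt_nonneg _)
  linarith

end Pool.Agent.NVT
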