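import Pool.Agent.Lib.MP_afd523_nt_T.Cls
import Pool.Agent.Lib.MP_afd523_nt_T.Rint

/-!
MP_afd523_nt, project NVT: the first moment over the even characters modulo `d`.
-/

namespace Pool.Agent.NVT

open Finset Complex Pool.Agent.NV

/-- `ψ` restricted to the class `b` modulo `d` -/
noncomputable def FF {q d : ℕ} (ψ : DirichletCharacter ℂ q) (b : ZMod d) (n : ℕ) : ℂ :=
  if (n : ZMod d) = b then ψ (n : ZMod q) else 0

lemma FF_norm {q d : ℕ} (ψ : DirichletCharacter ℂ q) (b : ZMod d) (n : ℕ) :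
    ‖FF ψ b n‖ ≤ 1 := by
  unfold FF
  split_ifs
  · exact ψ.norm_le_one _
  · simp

lemma orth {d : ℕ} [NeZero d] (a : (ZMod d)ˣ) (x : ZMod d) :
    ∑ χ : DirichletCharacter ℂ d, (1 + χ (-1)) * χ ((a⁻¹ : (ZMod d)ˣ) : ZMod d) * χ x =
      (Nat.totient d : ℂ) * ((if x = a then 1 else 0) + (if x = -a then 1 else 0)) := by
  have h1 := DirichletCharacter.sum_char_inv_mul_char_eq (R := ℂ) a.isUnit x
  have h2 := DirichletCharacter.sum_char_inv_mul_char_eq (R := ℂ) a.isUnit (-x)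
  have h3 : ∀ χ : DirichletCharacter ℂ d, (1 + χ (-1)) * χ ((a⁻¹ : (ZMod d)ˣ) : ZMod d) * χ x =
      χ (a : ZMod d)⁻¹ * χ x + χ (a : ZMod d)⁻¹ * χ (-x) := by
    intro χ
    rw [ZMod.inv_coe_unit, ← neg_one_mul x, map_mul]
    ring
  rw [Finset.sum_congr rfl fun χ _ => h3 χ, Finset.sum_add_distrib, h1, h2]
  have e1 : ((a : ZMod d) = x) ↔ (x = a) := eq_comm
  have e2 : ((a : ZMod d) = -x) ↔ (x = -a) := by
    constructor
    · intro h; rw [h, neg_neg]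
    · intro h; rw [h, neg_neg]
  simp only [e1, e2]
  split_ifs <;> ring

variable {e : ℕ}

lemma Av_lin (he : e ≤ 1) {T : ℝ} (hT : 0 < T) {ι : Type} (s : Finset ι) (c : ι → ℂ)
    (f : ι → ℕ → ℂ) (hf : ∀ i n, ‖f i n‖ ≤ 1) :
    ∑ i ∈ s, c i * Av e T (f i) = Av e T (fun n => ∑ i ∈ s, c i * f i n) := by
  unfold Av
  have h1 : ∀ i ∈ s, c i * ∑' n : ℕ, (wV e T n : ℂ) * f i n / (Real.sqrt n : ℂ) =
      ∑' n : ℕ, c i * ((wV e T n : ℂ) * f i n / (Real.sqrt n : ℂ)) := by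
    intro i _
    rw [tsum_mul_left]
  rw [Finset.sum_congr rfl h1, ← Summable.tsum_finsetSum]
  · refine tsum_congr fun n => ?_
    rw [Finset.mul_sum, Finset.sum_div]
    refine Finset.sum_congr rfl fun i _ => ?_
    ring
  · intro i _
    exact (Av_summable he hT (f i) 1 (hf i)).mul_left _

lemma coset_nat {q d : ℕ} [NeZero q] [NeZero d] (hd : d ∣ q)
    (ψ : DirichletCharacter ℂ q) (χ : DirichletCharacter ℂ d) (n : ℕ) :
    (ψ * DirichletCharacter.changeLevel hd χ) (n : ZMod q) = ψ n * χ n := by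
  rw [coset_apply, map_natCast (ZMod.castHom hd (ZMod d)) n]

/-- the approximate functional equation for an even twist -/
lemma L_eq {q d : ℕ} [NeZero q] [NeZero d] (hq : 1 < q) (hd : d ^ 2 ∣ q)
    (ψ : DirichletCharacter ℂ q) (hψ : ψ.IsPrimitive) (he : e ≤ 1) (hpar : ψ (-1) = (-1) ^ e)
    (χ : DirichletCharacter ℂ d) (hχ : χ (-1) = 1) :
    DirichletCharacter.LFunction (ψ * DirichletCharacter.changeLevel (dvd_of_sq hd) χ) (1 / 2) =
      Av e (√q) (fun n => ψ n * χ n) +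
      rn (ψ * DirichletCharacter.changeLevel (dvd_of_sq hd) χ) e *
        Av e (√q) (fun n => (starRingEnd ℂ) (ψ n * χ n)) := by
  have hq0 : (0 : ℝ) < q := by exact_mod_cast NeZero.pos q
  have hsq : 0 < √(q : ℝ) := Real.sqrt_pos.2 hq0
  have hp : (ψ * DirichletCharacter.changeLevel (dvd_of_sq hd) χ) (-1) = (-1) ^ e := by
    have hc : ZMod.castHom (dvd_of_sq hd) (ZMod d) (-1) = -1 := by
      rw [map_neg (ZMod.castHom (dvd_of_sq hd) (ZMod d)), map_one]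
    rw [coset_apply, hc, hχ, mul_one, hpar]
  rw [afeP hq _ (coset_primitive hd ψ hψ χ) he hp hsq]
  congr 1
  · unfold Av wV
    refine tsum_congr fun n => ?_
    rw [coset_nat]
  · congr 1
    unfold Av wV
    refine tsum_congr fun n => ?_
    rw [coset_nat]
    have h1 : (n : ℝ) * √(q : ℝ) / q = n / √(q : ℝ) := by
      have h2 : √(q : ℝ) * √(q : ℝ) = q := Real.mul_self_sqrt hq0.le
      rw [div_eq_div_iff hq0.ne' hsq.ne', mul_assoc, h2]
    rw [h1]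

lemma dual_coeff {q d : ℕ} [NeZero q] [NeZero d] (hd : d ^ 2 ∣ q)
    (ψ : DirichletCharacter ℂ q) (c₀ : (ZMod d)ˣ)
    (hc₀ : ∀ c : ZMod d, KK (dvd_of_sq hd) ψ c =
      if c = c₀ then gaussSum ψ (ZMod.stdAddChar : AddChar (ZMod q) ℂ) else 0)
    (e : ℕ) (a : (ZMod d)ˣ) (n : ℕ) :
    ∑ χ : DirichletCharacter ℂ d, ((1 + χ (-1)) * χ ((a⁻¹ : (ZMod d)ˣ) : ZMod d) *
        rn (ψ * DirichletCharacter.changeLevel (dvd_of_sq hd) χ) e) *
        (starRingEnd ℂ) (ψ n * χ n) =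
      (Nat.totient d : ℂ) * (rn ψ e * ((starRingEnd ℂ) (FF ψ ((c₀ * a⁻¹ : (ZMod d)ˣ) : ZMod d) n) +
        (starRingEnd ℂ) (FF ψ (-((c₀ * a⁻¹ : (ZMod d)ˣ) : ZMod d)) n))) := by
  classical
  have hdq := dvd_of_sq hd
  by_cases hn : IsUnit (n : ZMod d)
  · obtain ⟨v, hv⟩ := hn
    have hconj : ∀ χ : DirichletCharacter ℂ d, (starRingEnd ℂ) (χ (n : ZMod d)) =
        χ ((v⁻¹ : (ZMod d)ˣ) : ZMod d) := by
      intro χ
      have h1 : (starRingEnd ℂ) (χ (n : ZMod d)) = χ⁻¹ (n : ZMod d) := by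
        rw [← MulChar.star_eq_inv, MulChar.star_apply]
        rfl
      rw [h1, MulChar.inv_apply, ← hv, Ring.inverse_unit]
    have h2 : ∀ χ : DirichletCharacter ℂ d, ((1 + χ (-1)) * χ ((a⁻¹ : (ZMod d)ˣ) : ZMod d) *
        rn (ψ * DirichletCharacter.changeLevel (dvd_of_sq hd) χ) e) *
        (starRingEnd ℂ) (ψ n * χ n) =
        ((-I) ^ e / (√q : ℝ) * (starRingEnd ℂ) (ψ n)) * ∑ x : ZMod q, (ψ x * ZMod.stdAddChar x) *
          ((1 + χ (-1)) * χ (((a * v)⁻¹ : (ZMod d)ˣ) : ZMod d) *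
            χ (ZMod.castHom hdq (ZMod d) x)) := by
      intro χ
      rw [map_mul, hconj, rn, gaussSum]
      have h3 : χ (((a * v)⁻¹ : (ZMod d)ˣ) : ZMod d) =
          χ ((a⁻¹ : (ZMod d)ˣ) : ZMod d) * χ ((v⁻¹ : (ZMod d)ˣ) : ZMod d) := by
        rw [mul_inv, Units.val_mul, map_mul]
      rw [h3, Finset.mul_sum, Finset.mul_sum, Finset.sum_div, Finset.mul_sum, Finset.sum_mul]
      refine Finset.sum_congr rfl fun x _ => ?_
      rw [coset_apply]
      ring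
    rw [Finset.sum_congr rfl fun χ _ => h2 χ, ← Finset.mul_sum, Finset.sum_comm]
    have h4 : ∀ x : ZMod q, ∑ χ : DirichletCharacter ℂ d, (ψ x * ZMod.stdAddChar x) *
          ((1 + χ (-1)) * χ (((a * v)⁻¹ : (ZMod d)ˣ) : ZMod d) *
            χ (ZMod.castHom hdq (ZMod d) x)) =
        (Nat.totient d : ℂ) * ((if ZMod.castHom hdq (ZMod d) x = ((a * v : (ZMod d)ˣ) : ZMod d)
          then ψ x * ZMod.stdAddChar x else 0) +
          (if ZMod.castHom hdq (ZMod d) x = -((a * v : (ZMod d)ˣ) : ZMod d)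
          then ψ x * ZMod.stdAddChar x else 0)) := by
      intro x
      rw [← Finset.mul_sum, orth (a * v) (ZMod.castHom hdq (ZMod d) x)]
      split_ifs <;> ring
    rw [Finset.sum_congr rfl fun x _ => h4 x, ← Finset.mul_sum, Finset.sum_add_distrib]
    have h5 := hc₀ ((a * v : (ZMod d)ˣ) : ZMod d)
    have h6 := hc₀ (-((a * v : (ZMod d)ˣ) : ZMod d))
    unfold KK at h5 h6
    rw [h5, h6]
    have e1 : (((a * v : (ZMod d)ˣ) : ZMod d) = c₀) ↔
        ((n : ZMod d) = ((c₀ * a⁻¹ : (ZMod d)ˣ) : ZMod d)) := by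
      rw [← hv]
      constructor
      · intro h
        have h7 : a * v = c₀ := Units.ext h
        rw [← h7, mul_comm a v, mul_inv_cancel_right]
      · intro h
        have h7 : v = c₀ * a⁻¹ := Units.ext h
        rw [h7, mul_comm, mul_assoc, inv_mul_cancel, mul_one]
    have e2 : (-((a * v : (ZMod d)ˣ) : ZMod d) = c₀) ↔
        ((n : ZMod d) = -((c₀ * a⁻¹ : (ZMod d)ˣ) : ZMod d)) := by
      rw [← hv]
      have h8 : -((a * v : (ZMod d)ˣ) : ZMod d) = ((-(a * v) : (ZMod d)ˣ) : ZMod d) :=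
        (Units.val_neg _).symm
      have h9 : -((c₀ * a⁻¹ : (ZMod d)ˣ) : ZMod d) = ((-(c₀ * a⁻¹) : (ZMod d)ˣ) : ZMod d) :=
        (Units.val_neg _).symm
      rw [h8, h9]
      constructor
      · intro h
        have h7 : -(a * v) = c₀ := Units.ext h
        rw [← h7, neg_mul, neg_neg, mul_comm a v, mul_inv_cancel_right]
      · intro h
        have h7 : v = -(c₀ * a⁻¹) := Units.ext h
        rw [h7, mul_neg, neg_neg, mul_comm, mul_assoc, inv_mul_cancel, mul_one]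
    simp only [e1, e2, FF]
    rw [rn]
    split_ifs <;> (try simp only [map_zero]) <;> ring
  · have hψn : ψ (n : ZMod q) = 0 := by
      apply ψ.map_nonunit
      intro hu
      apply hn
      have := hu.map (ZMod.castHom hdq (ZMod d))
      rwa [map_natCast] at this
    simp [FF, hψn]

/-- the first moment over the even characters modulo `d` -/
theorem mom {q d : ℕ} [NeZero q] [NeZero d] (hq : 1 < q) (hd : d ^ 2 ∣ q)
    (ψ : DirichletCharacter ℂ q) (hψ : ψ.IsPrimitive) (he : e ≤ 1) (hpar : ψ (-1) = (-1) ^ e)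
    (c₀ : (ZMod d)ˣ)
    (hc₀ : ∀ c : ZMod d, KK (dvd_of_sq hd) ψ c =
      if c = c₀ then gaussSum ψ (ZMod.stdAddChar : AddChar (ZMod q) ℂ) else 0)
    (a : (ZMod d)ˣ) :
    ∑ χ : DirichletCharacter ℂ d, (1 + χ (-1)) * χ ((a⁻¹ : (ZMod d)ˣ) : ZMod d) *
      DirichletCharacter.LFunction (ψ * DirichletCharacter.changeLevel (dvd_of_sq hd) χ) (1 / 2) =
      (Nat.totient d : ℂ) * (Av e (√q) (FF ψ (a : ZMod d)) + Av e (√q) (FF ψ (-(a : ZMod d))) +
        rn ψ e * (Av e (√q) (fun n => (starRingEnd ℂ)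
          (FF ψ ((c₀ * a⁻¹ : (ZMod d)ˣ) : ZMod d) n)) +
          Av e (√q) (fun n => (starRingEnd ℂ)
          (FF ψ (-((c₀ * a⁻¹ : (ZMod d)ˣ) : ZMod d)) n)))) := by
  classical
  have hdq := dvd_of_sq hd
  have hq0 : (0 : ℝ) < q := by exact_mod_cast NeZero.pos q
  have hsq : 0 < √(q : ℝ) := Real.sqrt_pos.2 hq0
  have hm1 : ∀ χ : DirichletCharacter ℂ d, χ (-1) = 1 ∨ χ (-1) = -1 := by
    intro χ
    have h : χ (-1) * χ (-1) = 1 := by
      rw [← map_mul]; simp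
    exact mul_self_eq_one_iff.1 h
  have h1 : ∀ χ : DirichletCharacter ℂ d, (1 + χ (-1)) * χ ((a⁻¹ : (ZMod d)ˣ) : ZMod d) *
      DirichletCharacter.LFunction (ψ * DirichletCharacter.changeLevel hdq χ) (1 / 2) =
      ((1 + χ (-1)) * χ ((a⁻¹ : (ZMod d)ˣ) : ZMod d)) * Av e (√q) (fun n => ψ n * χ n) +
      ((1 + χ (-1)) * χ ((a⁻¹ : (ZMod d)ˣ) : ZMod d) *
        rn (ψ * DirichletCharacter.changeLevel hdq χ) e) *
        Av e (√q) (fun n => (starRingEnd ℂ) (ψ n * χ n)) := by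
    intro χ
    rcases hm1 χ with h | h
    · rw [L_eq hq hd ψ hψ he hpar χ h]
      ring
    · rw [h]; ring
  have hb : ∀ (χ : DirichletCharacter ℂ d) (n : ℕ), ‖ψ (n : ZMod q) * χ (n : ZMod d)‖ ≤ 1 := by
    intro χ n
    rw [norm_mul]
    have h2 := ψ.norm_le_one (n : ZMod q)
    have h3 := χ.norm_le_one (n : ZMod d)
    calc _ ≤ (1 : ℝ) * 1 := mul_le_mul h2 h3 (norm_nonneg _) zero_le_one
      _ = 1 := one_mul 1
  rw [Finset.sum_congr rfl fun χ _ => h1 χ, Finset.sum_add_distrib,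
    Av_lin he hsq Finset.univ
      (fun χ : DirichletCharacter ℂ d => (1 + χ (-1)) * χ ((a⁻¹ : (ZMod d)ˣ) : ZMod d))
      (fun (χ : DirichletCharacter ℂ d) (n : ℕ) => ψ (n : ZMod q) * χ (n : ZMod d)) hb,
    Av_lin he hsq Finset.univ
      (fun χ : DirichletCharacter ℂ d => (1 + χ (-1)) * χ ((a⁻¹ : (ZMod d)ˣ) : ZMod d) *
        rn (ψ * DirichletCharacter.changeLevel hdq χ) e)
      (fun (χ : DirichletCharacter ℂ d) (n : ℕ) =>
        (starRingEnd ℂ) (ψ (n : ZMod q) * χ (n : ZMod d)))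
      (fun χ n => by rw [RCLike.norm_conj]; exact hb χ n)]
  have h2 : (fun n : ℕ => ∑ χ : DirichletCharacter ℂ d,
      ((1 + χ (-1)) * χ ((a⁻¹ : (ZMod d)ˣ) : ZMod d)) * (ψ (n : ZMod q) * χ (n : ZMod d))) =
      fun n : ℕ => (Nat.totient d : ℂ) * FF ψ (a : ZMod d) n +
        (Nat.totient d : ℂ) * FF ψ (-(a : ZMod d)) n := by
    funext n
    have h3 : ∀ χ : DirichletCharacter ℂ d,
        ((1 + χ (-1)) * χ ((a⁻¹ : (ZMod d)ˣ) : ZMod d)) * (ψ (n : ZMod q) * χ (n : ZMod d)) =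
        ψ (n : ZMod q) * ((1 + χ (-1)) * χ ((a⁻¹ : (ZMod d)ˣ) : ZMod d) * χ (n : ZMod d)) := by
      intro χ; ring
    rw [Finset.sum_congr rfl fun χ _ => h3 χ, ← Finset.mul_sum, orth]
    unfold FF
    split_ifs <;> ring
  have h4 : (fun n : ℕ => ∑ χ : DirichletCharacter ℂ d,
      ((1 + χ (-1)) * χ ((a⁻¹ : (ZMod d)ˣ) : ZMod d) *
        rn (ψ * DirichletCharacter.changeLevel hdq χ) e) *
        (starRingEnd ℂ) (ψ (n : ZMod q) * χ (n : ZMod d))) =
      fun n : ℕ => (Nat.totient d : ℂ) * rn ψ e *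
        (starRingEnd ℂ) (FF ψ ((c₀ * a⁻¹ : (ZMod d)ˣ) : ZMod d) n) +
        (Nat.totient d : ℂ) * rn ψ e *
        (starRingEnd ℂ) (FF ψ (-((c₀ * a⁻¹ : (ZMod d)ˣ) : ZMod d)) n) := by
    funext n
    rw [dual_coeff hd ψ c₀ hc₀ e a n]
    ring
  rw [h2, h4]
  have hlin2 : ∀ (c1 c2 : ℂ) (f1 f2 : ℕ → ℂ), (∀ n, ‖f1 n‖ ≤ 1) → (∀ n, ‖f2 n‖ ≤ 1) →
      Av e (√q) (fun n => c1 * f1 n + c2 * f2 n) = c1 * Av e (√q) f1 + c2 * Av e (√q) f2 := by
    intro c1 c2 f1 f2 hf1 hf2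
    have h5 := Av_lin he hsq (Finset.univ : Finset (Fin 2)) ![c1, c2] (fun i => ![f1, f2] i)
      (fun i n => by fin_cases i <;> simp [hf1, hf2])
    simp only [Fin.sum_univ_two, Matrix.cons_val_zero, Matrix.cons_val_one] at h5
    exact h5.symm
  rw [hlin2 _ _ _ _ (FF_norm ψ _) (FF_norm ψ _),
    hlin2 _ _ _ _ (fun n => by rw [RCLike.norm_conj]; exact FF_norm ψ _ n)
      (fun n => by rw [RCLike.norm_conj]; exact FF_norm ψ _ n)]
  ring

end Pool.Agent.NVT
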